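import Pool.Agent.X169.NL.Core

/-! The smoothing theorem: from the local hypotheses to charts of one size. -/

set_option autoImplicit false

open Set Filter Topology Metric Function MeasureTheory
open scoped Manifold ContDiff

noncomputable section

namespace Pool.Agent.X169.NL

open Pool.Agent.Y522

/-- nearly linear in the parametrization `A`, at the points of norm at most `r₁`, at all scales up
to `r₀`, with error `ε` and condition numbers at most `K` -/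
def NLin {n : ℕ} {X : Type} (F : X → E n) (A : E n → X) (ε K r₁ r₀ : ℝ) : Prop :=
  ∀ p : E n, ‖p‖ ≤ r₁ → ∀ r : ℝ, 0 < r → r ≤ r₀ → ∃ (T : E n →L[ℝ] E n) (l : ℝ), 0 < l ∧
    (∀ v, l * ‖v‖ ≤ ‖T v‖ ∧ ‖T v‖ ≤ K * (l * ‖v‖)) ∧
    ∀ q, ‖q - p‖ ≤ r → ‖F (A q) - F (A p) - T (q - p)‖ ≤ ε * l * r

theorem LD_affine {n : ℕ} (p : E n) (c : ℝ) (hc : c ≠ 0) (z : E n) :
    LD n (fun w => p + c • w) z := by
  apply LD_of_bij
  · exact Eventually.of_forall fun y => (by fun_prop : ContDiff ℝ ∞ (fun w : E n => p + c • w)).contDiffAt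
  · have h : HasFDerivAt (fun w : E n => p + c • w) (c • ContinuousLinearMap.id ℝ (E n)) z :=
      ((hasFDerivAt_id (𝕜 := ℝ) z).const_smul c).const_add p
    rw [h.fderiv]
    constructor
    · intro a b hab
      simpa [hc] using hab
    · intro a
      exact ⟨c⁻¹ • a, by simp [hc]⟩

theorem glob_aux {n : ℕ} (L : ℝ) (hL : 1 ≤ L) {X : Type} [TopologicalSpace X] [T2Space X]
    [ChartedSpace (E n) X] [IsManifold (𝓡 n) ∞ X] (F : X → E n) (hF : IsOpenEmbedding F)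
    (t : Finset X) (A : X → E n → X) (ρ : X → ℝ) (hρ : ∀ x ∈ t, 0 < ρ x)
    (hinj : ∀ x ∈ t, InjOn (A x) (closedBall 0 (4 * ρ x)))
    (hLD : ∀ x ∈ t, ∀ z ∈ closedBall (0 : E n) (4 * ρ x), LD n (A x) z)
    (htr : ∀ x ∈ t, ∀ y ∈ t, ∀ p ∈ closedBall (0 : E n) (3 * ρ x),
      ∀ p' ∈ closedBall (0 : E n) (3 * ρ x), ∀ q ∈ closedBall (0 : E n) (3 * ρ y),
      ∀ q' ∈ closedBall (0 : E n) (3 * ρ y),
      A x p = A y q → A x p' = A y q' → ‖q' - q‖ ≤ L * ‖p' - p‖)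
    (K r₀ : ℝ) (hK : 1 ≤ K) (hr₀ : 0 < r₀)
    (hbox : ∀ x ∈ t, NLin F (A x) (eps n L) K (2 * ρ x) r₀)
    (hcov : ∀ x, ¬ LD n F x → ∃ y ∈ t, x ∈ A y '' ball 0 (ρ y)) :
    ∃ (F' : X → E n) (C : Set X), IsCompact C ∧ (∀ p, p ∉ C → F' p = F p) ∧
      (∀ p, F' p ∈ range F) ∧ ∀ x, LD n F' x := by
  classical
  -- the common size of the charts
  obtain ⟨c, hc, hcρ⟩ : ∃ c : ℝ, 0 < c ∧ ∀ x ∈ t, c ≤ ρ x := by
    rcases t.eq_empty_or_nonempty with h | h
    · exact ⟨1, one_pos, by simp [h]⟩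
    · obtain ⟨x, hx, hx'⟩ := t.exists_min_image ρ h
      exact ⟨ρ x, hρ x hx, hx'⟩
  have hfc : ∀ x : X, ∃ P : Finset (E n), (∀ p ∈ P, p ∈ closedBall (0 : E n) (ρ x)) ∧
      closedBall (0 : E n) (ρ x) ⊆ ⋃ p ∈ P, ball p (c / 2) := by
    intro x
    obtain ⟨P, hP1, hP2⟩ := (isCompact_closedBall (0 : E n) (ρ x)).finite_cover_balls
      (e := c / 2) (by positivity)
    refine ⟨hP2.1.toFinset, fun p hp => hP1 (by simpa using hp), ?_⟩
    simpa using hP2.2
  choose P hP1 hP2 using hfc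
  set S : Finset (X × E n) := t.biUnion fun x => (P x).image fun p => (x, p) with hS
  have hSm : ∀ s ∈ S, s.1 ∈ t ∧ ‖s.2‖ ≤ ρ s.1 := by
    rintro ⟨x, p⟩ hs
    simp only [hS, Finset.mem_biUnion, Finset.mem_image, Prod.mk.injEq] at hs
    obtain ⟨y, hy, q, hq, rfl, rfl⟩ := hs
    exact ⟨hy, by simpa using hP1 y q hq⟩
  have key : ∀ s : {s // s ∈ S}, ∀ (a : ℝ) (w : E n), ‖w‖ ≤ a →
      ‖s.1.2 + c • w‖ ≤ ρ s.1.1 + c * a := by
    intro s a w hw
    refine (norm_add_le _ _).trans (add_le_add (hSm _ s.2).2 ?_)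
    rw [norm_smul, Real.norm_of_nonneg hc.le]
    gcongr
  have hin3 : ∀ s : {s // s ∈ S}, ∀ w ∈ closedBall (0 : E n) 2,
      s.1.2 + c • w ∈ closedBall (0 : E n) (3 * ρ s.1.1) := by
    intro s w hw
    rw [mem_closedBall_zero_iff] at hw ⊢
    have h1 := key s 2 w hw
    have h2 := hcρ _ (hSm _ s.2).1
    linarith
  have h34 : ∀ s : {s // s ∈ S}, closedBall (0 : E n) (3 * ρ s.1.1) ⊆
      closedBall 0 (4 * ρ s.1.1) := fun s =>
    closedBall_subset_closedBall (by have := hρ _ (hSm _ s.2).1; linarith)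
  refine core L hL F hF (ι := {s // s ∈ S}) (fun s z => A s.1.1 (s.1.2 + c • z)) ?_ ?_ ?_ K
    (min 1 (r₀ / c)) hK (by positivity) ?_ ?_
  · intro s a ha b hb hab
    have h1 := hinj _ (hSm _ s.2).1 (h34 s (hin3 s a ha)) (h34 s (hin3 s b hb)) hab
    have h2 : c • a = c • b := add_left_cancel h1
    exact smul_right_injective _ hc.ne' h2
  · intro s z hz
    exact LD.comp_fun (g := A s.1.1) (f := fun z => s.1.2 + c • z)
      (hLD _ (hSm _ s.2).1 _ (h34 s (hin3 s z hz))) (LD_affine _ _ hc.ne' _)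
  · intro i j p hp p' hp' q hq q' hq' h1 h2
    have h3 := htr _ (hSm _ i.2).1 _ (hSm _ j.2).1 _ (hin3 i p hp) _ (hin3 i p' hp') _
      (hin3 j q hq) _ (hin3 j q' hq') h1 h2
    rw [add_sub_add_left_eq_sub, add_sub_add_left_eq_sub, ← smul_sub, ← smul_sub, norm_smul,
      norm_smul, Real.norm_of_nonneg hc.le] at h3
    have h4 : c * ‖q' - q‖ ≤ c * (L * ‖p' - p‖) := by linarith
    exact le_of_mul_le_mul_left h4 hc
  · intro s p hp r hr hrr
    have h1 : c * r ≤ r₀ := by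
      have := hrr.trans (min_le_right _ _)
      rw [le_div_iff₀ hc] at this
      linarith
    have h2 : ‖s.1.2 + c • p‖ ≤ 2 * ρ s.1.1 := by
      have e1 := key s 1 p hp
      have e2 := hcρ _ (hSm _ s.2).1
      linarith
    obtain ⟨T, l, hl, hT, hT'⟩ := hbox _ (hSm _ s.2).1 _ h2 (c * r) (by positivity) h1
    refine ⟨c • T, c * l, by positivity, ?_, ?_⟩
    · intro v
      have e1 := hT v
      rw [ContinuousLinearMap.smul_apply, norm_smul, Real.norm_of_nonneg hc.le]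
      constructor
      · have := mul_le_mul_of_nonneg_left e1.1 hc.le
        linarith
      · have := mul_le_mul_of_nonneg_left e1.2 hc.le
        linarith
    · intro q hq
      have e1 := hT' (s.1.2 + c • q) (by
        rw [add_sub_add_left_eq_sub, ← smul_sub, norm_smul, Real.norm_of_nonneg hc.le]
        gcongr)
      rw [add_sub_add_left_eq_sub, ← smul_sub, map_smul] at e1
      rw [ContinuousLinearMap.smul_apply]
      refine e1.trans (le_of_eq (by ring))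
  · intro x hx
    obtain ⟨y, hy, w, hw, hwx⟩ := hcov x hx
    have h1 := hP2 y (ball_subset_closedBall hw)
    simp only [mem_iUnion] at h1
    obtain ⟨p, hp, hpw⟩ := h1
    refine ⟨⟨(y, p), ?_⟩, c⁻¹ • (w - p), ?_, ?_⟩
    · simp only [hS, Finset.mem_biUnion, Finset.mem_image, Prod.mk.injEq]
      exact ⟨y, hy, p, hp, rfl, rfl⟩
    · rw [mem_closedBall_zero_iff, norm_smul, norm_inv, Real.norm_of_nonneg hc.le,
        inv_mul_le_iff₀ hc]
      rw [mem_ball, dist_eq_norm] at hpw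
      linarith
    · simp only [smul_inv_smul₀ hc.ne', add_sub_cancel]
      exact hwx

/-- injectivity and the local diffeomorphism property on a small ball -/
theorem small_ball {n : ℕ} {X : Type} [TopologicalSpace X] [ChartedSpace (E n) X]
    (A : E n → X) (hA : LD n A 0) : ∃ r : ℝ, 0 < r ∧ InjOn A (closedBall 0 r) ∧
      ∀ z ∈ closedBall (0 : E n) r, LD n A z := by
  obtain ⟨u, hu, hui⟩ := hA.eventually_injOn
  obtain ⟨r, hr, hr'⟩ := Metric.nhds_basis_closedBall.mem_iff.1 (Filter.inter_mem hu hA.eventually)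
  exact ⟨r, hr, hui.mono fun z hz => (hr' hz).1, fun z hz => (hr' hz).2⟩

/-- **Nearly linear, fixed error** (relative to a function `d`, for instance a distance). -/
theorem glob_fixed {n : ℕ} (L : ℝ) (hL : 1 ≤ L) {X : Type} [TopologicalSpace X] [T2Space X]
    [ChartedSpace (E n) X] [IsManifold (𝓡 n) ∞ X] (F : X → E n) (hF : IsOpenEmbedding F)
    (hconn : IsPreconnected (range F)) (d : X → X → ℝ)
    (hbad : IsCompact {x | ¬ LD n F x})
    (h : ∀ x, ¬ LD n F x → ∃ (A : E n → X) (K r : ℝ), A 0 = x ∧ LD n A 0 ∧ 0 < r ∧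
      (∀ p q : E n, ‖p‖ ≤ r → ‖q‖ ≤ r →
        ‖q - p‖ ≤ L * d (A p) (A q) ∧ d (A p) (A q) ≤ L * ‖q - p‖) ∧
      NLin F A (eps n (L ^ 2)) K r r) :
    ∃ (F' : X → E n) (C : Set X), IsCompact C ∧ Continuous F' ∧ Injective F' ∧
      range F' = range F ∧ (∀ p, p ∉ C → F' p = F p) ∧ ∀ x, LD n F' x := by
  classical
  have hL0 : 0 < L := by linarith
  have h' : ∀ x, ∃ (A : E n → X) (K ρ : ℝ), ¬ LD n F x → (A 0 = x ∧ LD n A 0 ∧ 0 < ρ ∧
      InjOn A (closedBall 0 (4 * ρ)) ∧ (∀ z ∈ closedBall (0 : E n) (4 * ρ), LD n A z) ∧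
      (∀ p q : E n, ‖p‖ ≤ 3 * ρ → ‖q‖ ≤ 3 * ρ →
        ‖q - p‖ ≤ L * d (A p) (A q) ∧ d (A p) (A q) ≤ L * ‖q - p‖) ∧
      NLin F A (eps n (L ^ 2)) K (2 * ρ) ρ) := by
    intro x
    by_cases hx : LD n F x
    · exact ⟨fun _ => x, 0, 0, fun h => absurd hx h⟩
    · obtain ⟨A, K, r, hA0, hAd, hr, hd, hN⟩ := h x hx
      obtain ⟨r', hr', hi, hl⟩ := small_ball A hAd
      have hρ : 0 < min (r / 3) (r' / 4) := by positivity
      have e1 : min (r / 3) (r' / 4) ≤ r / 3 := min_le_left _ _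
      have e2 : min (r / 3) (r' / 4) ≤ r' / 4 := min_le_right _ _
      have e3 : closedBall (0 : E n) (4 * min (r / 3) (r' / 4)) ⊆ closedBall 0 r' :=
        closedBall_subset_closedBall (by linarith)
      refine ⟨A, K, min (r / 3) (r' / 4), fun _ => ⟨hA0, hAd, hρ, hi.mono e3,
        fun z hz => hl z (e3 hz), fun p q hp hq => hd p q (by linarith) (by linarith), ?_⟩⟩
      intro p hp s hs hs'
      exact hN p (by linarith) s hs (by linarith)
  choose A K ρ hA using h'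
  obtain ⟨t, hcov⟩ := hbad.elim_nhds_subcover' (fun x hx => A x '' ball 0 (ρ x)) (by
    intro x hx
    obtain ⟨h0, -, hρ, -, hl, -, -⟩ := hA x hx
    have h1 : A x '' ball 0 (ρ x) ∈ 𝓝 (A x 0) := by
      apply (hl 0 (by simp; linarith)).image_mem_nhds
      exact ball_mem_nhds _ hρ
    rwa [h0] at h1)
  set t' : Finset X := t.image Subtype.val with ht'
  have hmem : ∀ x ∈ t', ¬ LD n F x := by
    intro x hx
    obtain ⟨y, -, rfl⟩ := Finset.mem_image.1 hx
    exact y.2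
  obtain ⟨K', hK'⟩ := (t'.image K).exists_le
  obtain ⟨r₀, hr₀, hr₀'⟩ : ∃ c : ℝ, 0 < c ∧ ∀ x ∈ t', c ≤ ρ x := by
    rcases t'.eq_empty_or_nonempty with h | h
    · exact ⟨1, one_pos, by simp [h]⟩
    · obtain ⟨x, hx, hx'⟩ := t'.exists_min_image ρ h
      exact ⟨ρ x, (hA x (hmem x hx)).2.2.1, hx'⟩
  obtain ⟨F', C, hC, hout, hran, hl⟩ := glob_aux (L ^ 2) (one_le_pow₀ hL) F hF t' A ρ
    (fun x hx => (hA x (hmem x hx)).2.2.1) (fun x hx => (hA x (hmem x hx)).2.2.2.1)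
    (fun x hx => (hA x (hmem x hx)).2.2.2.2.1) (by
      intro x hx y hy p hp p' hp' q hq q' hq' e1 e2
      have f1 := (hA x (hmem x hx)).2.2.2.2.2.1 p p' (by simpa using hp) (by simpa using hp')
      have f2 := (hA y (hmem y hy)).2.2.2.2.2.1 q q' (by simpa using hq) (by simpa using hq')
      rw [← e1, ← e2] at f2
      calc ‖q' - q‖ ≤ L * d (A x p) (A x p') := f2.1
        _ ≤ L * (L * ‖p' - p‖) := mul_le_mul_of_nonneg_left f1.2 hL0.le
        _ = L ^ 2 * ‖p' - p‖ := by ring) (max K' 1) r₀ (le_max_right _ _) hr₀ (by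
      intro x hx p hp r hr hr'
      obtain ⟨T, l, hl, hT, hT'⟩ := (hA x (hmem x hx)).2.2.2.2.2.2 p hp r hr
        (hr'.trans (hr₀' x hx))
      refine ⟨T, l, hl, fun v => ⟨(hT v).1, (hT v).2.trans ?_⟩, hT'⟩
      apply mul_le_mul_of_nonneg_right _ (by positivity)
      exact (hK' _ (Finset.mem_image_of_mem K hx)).trans (le_max_left _ _)) (by
      intro x hx
      have h1 := hcov hx
      simp only [mem_iUnion] at h1
      obtain ⟨y, hy, hyx⟩ := h1
      exact ⟨y, Finset.mem_image_of_mem _ hy, hyx⟩)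
  obtain ⟨h1, h2⟩ := Pool.Agent.Y702.SH.coverV n X F F' C hF hconn hC hout hran hl
  exact ⟨F', C, hC, continuous_iff_continuousAt.2 fun x => (hl x).continuousAt, h1, h2, hout, hl⟩

/-- changes of charts are Lipschitz on compact sets -/
theorem trans_lip {n : ℕ} {X : Type} [TopologicalSpace X] [T2Space X] [ChartedSpace (E n) X]
    (A B : E n → X) (a b : ℝ) (hb : 0 < b)
    (hAd : ∀ z ∈ closedBall (0 : E n) (3 * a), LD n A z)
    (hBi : InjOn B (closedBall 0 (4 * b))) (hBd : ∀ z ∈ closedBall (0 : E n) (4 * b), LD n B z) :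
    ∃ L : ℝ, ∀ p ∈ closedBall (0 : E n) (3 * a), ∀ p' ∈ closedBall (0 : E n) (3 * a),
      ∀ q ∈ closedBall (0 : E n) (3 * b), ∀ q' ∈ closedBall (0 : E n) (3 * b),
      A p = B q → A p' = B q' → ‖q' - q‖ ≤ L * ‖p' - p‖ := by
  classical
  have h34 : closedBall (0 : E n) (3 * b) ⊆ ball 0 (4 * b) :=
    closedBall_subset_ball (by linarith)
  have h34' : closedBall (0 : E n) (3 * b) ⊆ closedBall 0 (4 * b) :=
    closedBall_subset_closedBall (by linarith)
  obtain ⟨inv, hinv⟩ : ∃ inv : X → E n, ∀ z ∈ closedBall (0 : E n) (4 * b), inv (B z) = z :=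
    ⟨invFunOn B (closedBall 0 (4 * b)), fun z hz => hBi.leftInvOn_invFunOn hz⟩
  have hinvLD : ∀ z ∈ ball (0 : E n) (4 * b), LD n inv (B z) := fun z hz =>
    LD.inverse isOpen_ball (fun w hw => hBd w (ball_subset_closedBall hw))
      (fun w hw => hinv w (ball_subset_closedBall hw)) hz
  have hBc : ContinuousOn B (closedBall 0 (3 * b)) :=
    fun z hz => (hBd z (h34' hz)).continuousAt.continuousWithinAt
  have hAc : ContinuousOn A (closedBall 0 (3 * a)) :=
    fun z hz => (hAd z hz).continuousAt.continuousWithinAt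
  have hcomp : IsCompact (B '' closedBall 0 (3 * b)) :=
    (isCompact_closedBall _ _).image_of_continuousOn hBc
  set S : Set (E n) := closedBall 0 (3 * a) ∩ A ⁻¹' (B '' closedBall 0 (3 * b)) with hS
  have hSc : IsCompact S := by
    refine (isCompact_closedBall (0 : E n) (3 * a)).of_isClosed_subset ?_ inter_subset_left
    exact hAc.preimage_isClosed_of_isClosed isClosed_closedBall hcomp.isClosed
  have hl : LocallyLipschitzOn S (fun z => inv (A z)) := by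
    intro z hz
    have h1 : LD n (fun z => inv (A z)) z := by
      refine LD.comp_fun (g := inv) ?_ (hAd z hz.1)
      obtain ⟨w, hw, hwz⟩ := hz.2
      rw [← hwz]
      exact hinvLD w (h34 hw)
    obtain ⟨K, t, ht, hK⟩ := (h1.contDiffAt.of_le (by simp) :
      ContDiffAt ℝ 1 (fun z => inv (A z)) z).exists_lipschitzOnWith
    exact ⟨K, t, mem_nhdsWithin_of_mem_nhds ht, hK⟩
  obtain ⟨K, hK⟩ := hl.exists_lipschitzOnWith_of_compact hSc
  refine ⟨K, ?_⟩
  intro p hp p' hp' q hq q' hq' e1 e2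
  have h1 := hK.dist_le_mul p' ⟨hp', q', hq', e2.symm⟩ p ⟨hp, q, hq, e1.symm⟩
  rw [e1, e2, hinv q (h34' hq), hinv q' (h34' hq'), dist_eq_norm, dist_eq_norm] at h1
  exact h1

/-- **Asymptotically linear at small scales.** -/
theorem glob_asym {n : ℕ} {X : Type} [TopologicalSpace X] [T2Space X]
    [ChartedSpace (E n) X] [IsManifold (𝓡 n) ∞ X] (F : X → E n) (hF : IsOpenEmbedding F)
    (hconn : IsPreconnected (range F))
    (hbad : IsCompact {x | ¬ LD n F x})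
    (h : ∀ x, ¬ LD n F x → ∃ (A : E n → X) (K r : ℝ), A 0 = x ∧ LD n A 0 ∧ 0 < r ∧
      ∀ ε : ℝ, 0 < ε → ∃ r₀ : ℝ, 0 < r₀ ∧ NLin F A ε K r r₀) :
    ∃ (F' : X → E n) (C : Set X), IsCompact C ∧ Continuous F' ∧ Injective F' ∧
      range F' = range F ∧ (∀ p, p ∉ C → F' p = F p) ∧ ∀ x, LD n F' x := by
  classical
  have h' : ∀ x, ∃ (A : E n → X) (K ρ : ℝ), ¬ LD n F x → (A 0 = x ∧ LD n A 0 ∧ 0 < ρ ∧
      InjOn A (closedBall 0 (4 * ρ)) ∧ (∀ z ∈ closedBall (0 : E n) (4 * ρ), LD n A z) ∧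
      ∀ ε : ℝ, 0 < ε → ∃ r₀ : ℝ, 0 < r₀ ∧ NLin F A ε K (2 * ρ) r₀) := by
    intro x
    by_cases hx : LD n F x
    · exact ⟨fun _ => x, 0, 0, fun h => absurd hx h⟩
    · obtain ⟨A, K, r, hA0, hAd, hr, hN⟩ := h x hx
      obtain ⟨r', hr', hi, hl⟩ := small_ball A hAd
      have hρ : 0 < min (r / 3) (r' / 4) := by positivity
      have e1 : min (r / 3) (r' / 4) ≤ r / 3 := min_le_left _ _
      have e2 : min (r / 3) (r' / 4) ≤ r' / 4 := min_le_right _ _
      have e3 : closedBall (0 : E n) (4 * min (r / 3) (r' / 4)) ⊆ closedBall 0 r' :=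
        closedBall_subset_closedBall (by linarith)
      refine ⟨A, K, min (r / 3) (r' / 4), fun _ => ⟨hA0, hAd, hρ, hi.mono e3,
        fun z hz => hl z (e3 hz), fun ε hε => ?_⟩⟩
      obtain ⟨r₀, hr₀, hN'⟩ := hN ε hε
      exact ⟨r₀, hr₀, fun p hp s hs hs' => hN' p (by linarith) s hs hs'⟩
  choose A K ρ hA using h'
  obtain ⟨t, hcov⟩ := hbad.elim_nhds_subcover' (fun x hx => A x '' ball 0 (ρ x)) (by
    intro x hx
    obtain ⟨h0, -, hρ, -, hl, -⟩ := hA x hx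
    have h1 : A x '' ball 0 (ρ x) ∈ 𝓝 (A x 0) := by
      apply (hl 0 (by simp; linarith)).image_mem_nhds
      exact ball_mem_nhds _ hρ
    rwa [h0] at h1)
  set t' : Finset X := t.image Subtype.val with ht'
  have hmem : ∀ x ∈ t', ¬ LD n F x := by
    intro x hx
    obtain ⟨y, -, rfl⟩ := Finset.mem_image.1 hx
    exact y.2
  obtain ⟨K', hK'⟩ := (t'.image K).exists_le
  -- the Lipschitz constant of the changes of charts
  have hlip : ∀ s : X × X, ∃ L : ℝ, s ∈ t' ×ˢ t' → ∀ p ∈ closedBall (0 : E n) (3 * ρ s.1),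
      ∀ p' ∈ closedBall (0 : E n) (3 * ρ s.1), ∀ q ∈ closedBall (0 : E n) (3 * ρ s.2),
      ∀ q' ∈ closedBall (0 : E n) (3 * ρ s.2),
      A s.1 p = A s.2 q → A s.1 p' = A s.2 q' → ‖q' - q‖ ≤ L * ‖p' - p‖ := by
    intro s
    by_cases hs : s ∈ t' ×ˢ t'
    swap
    · exact ⟨0, fun h => absurd h hs⟩
    obtain ⟨h1, h2⟩ := Finset.mem_product.1 hs
    obtain ⟨-, -, hρ1, -, hl1, -⟩ := hA s.1 (hmem _ h1)
    obtain ⟨-, -, hρ2, hi2, hl2, -⟩ := hA s.2 (hmem _ h2)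
    obtain ⟨L, hL⟩ := trans_lip (A s.1) (A s.2) (ρ s.1) (ρ s.2) hρ2
      (fun z hz => hl1 z (closedBall_subset_closedBall (by linarith) hz)) hi2 hl2
    exact ⟨L, fun _ => hL⟩
  choose Lf hLf using hlip
  obtain ⟨L', hL'⟩ := ((t' ×ˢ t').image Lf).exists_le
  set L : ℝ := max L' 1 with hLd
  have hL : 1 ≤ L := le_max_right _ _
  have hr0 : ∀ x, ∃ r₀ : ℝ, 0 < r₀ ∧ (x ∈ t' → NLin F (A x) (eps n L) (K x) (2 * ρ x) r₀) := by
    intro x
    by_cases hx : x ∈ t'
    · obtain ⟨r₀, h1, h2⟩ := (hA x (hmem x hx)).2.2.2.2.2 _ (eps_pos n hL)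
      exact ⟨r₀, h1, fun _ => h2⟩
    · exact ⟨1, one_pos, fun h => absurd h hx⟩
  choose r1 hr1 hr1' using hr0
  obtain ⟨r₀, hr₀, hr₀'⟩ : ∃ c : ℝ, 0 < c ∧ ∀ x ∈ t', c ≤ r1 x := by
    rcases t'.eq_empty_or_nonempty with h | h
    · exact ⟨1, one_pos, by simp [h]⟩
    · obtain ⟨x, hx, hx'⟩ := t'.exists_min_image r1 h
      exact ⟨r1 x, hr1 x, hx'⟩
  obtain ⟨F', C, hC, hout, hran, hl⟩ := glob_aux L hL F hF t' A ρ
    (fun x hx => (hA x (hmem x hx)).2.2.1) (fun x hx => (hA x (hmem x hx)).2.2.2.1)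
    (fun x hx => (hA x (hmem x hx)).2.2.2.2.1) (by
      intro x hx y hy p hp p' hp' q hq q' hq' e1 e2
      refine (hLf (x, y) (Finset.mem_product.2 ⟨hx, hy⟩) p hp p' hp' q hq q' hq' e1 e2).trans ?_
      apply mul_le_mul_of_nonneg_right _ (norm_nonneg _)
      exact (hL' _ (Finset.mem_image_of_mem Lf (Finset.mem_product.2 ⟨hx, hy⟩))).trans
        (le_max_left _ _)) (max K' 1) r₀ (le_max_right _ _) hr₀ (by
      intro x hx p hp r hr hr'
      obtain ⟨T, l, hl, hT, hT'⟩ := hr1' x hx p hp r hr (hr'.trans (hr₀' x hx))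
      refine ⟨T, l, hl, fun v => ⟨(hT v).1, (hT v).2.trans ?_⟩, hT'⟩
      apply mul_le_mul_of_nonneg_right _ (by positivity)
      exact (hK' _ (Finset.mem_image_of_mem K hx)).trans (le_max_left _ _)) (by
      intro x hx
      have h1 := hcov hx
      simp only [mem_iUnion] at h1
      obtain ⟨y, hy, hyx⟩ := h1
      exact ⟨y, Finset.mem_image_of_mem _ hy, hyx⟩)
  obtain ⟨h1, h2⟩ := Pool.Agent.Y702.SH.coverV n X F F' C hF hconn hC hout hran hl
  exact ⟨F', C, hC, continuous_iff_continuousAt.2 fun x => (hl x).continuousAt, h1, h2, hout, hl⟩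

end Pool.Agent.X169.NL
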