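import Pool.Agent.X169.NL.Est
import Pool.Agent.Y522.Sch

/-! The smoothing of nearly linear homeomorphisms. -/

set_option autoImplicit false

open Set Filter Topology Metric Function MeasureTheory
open scoped Manifold ContDiff

noncomputable section

namespace Pool.Agent.X169.NL

open Pool.Agent.Y522

/-- derivatives of local diffeomorphisms are bounded below on compact sets -/
theorem low_unif {n : ℕ} (φ : E n → E n) (K : Set (E n)) (hK : IsCompact K)
    (h : ∀ z ∈ K, LD n φ z) : ∃ σ : ℝ, 0 < σ ∧ ∀ z ∈ K, ∀ v : E n, ‖v‖ = 1 →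
      σ ≤ ‖fderiv ℝ φ z v‖ := by
  have h1 : ContinuousOn (fun p : E n × E n => ‖fderiv ℝ φ p.1 p.2‖) (K ×ˢ sphere 0 1) := by
    rintro ⟨z, v⟩ ⟨hz, -⟩
    have h2 : ContinuousAt (fderiv ℝ φ) z :=
      (((h z hz).contDiffAt.of_le (by simp) : ContDiffAt ℝ 1 φ z).fderiv_right
        (m := 0) (by simp)).continuousAt
    have h3 : ContinuousAt (fun p : E n × E n => fderiv ℝ φ p.1) (z, v) :=
      ContinuousAt.comp (f := Prod.fst) (g := fderiv ℝ φ) h2 continuousAt_fst
    exact ((h3.clm_apply continuousAt_snd).norm).continuousWithinAt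
  obtain ⟨σ, hσ, hσ'⟩ := (hK.prod (isCompact_sphere (0 : E n) 1)).exists_forall_le' h1 (a := 0) (by
    rintro ⟨z, v⟩ ⟨hz, hv⟩
    have h2 := (h z hz).bij.2.1
    have hv' : v ≠ 0 := by
      rintro rfl
      simp at hv
    exact norm_pos_iff.2 fun h3 => hv' (h2 (by rw [h3, map_zero])))
  exact ⟨σ, hσ, fun z hz v hv => hσ' (z, v) ⟨hz, by simpa using hv⟩⟩

/-- nearly linear at all small scales, in the chart `B` -/
def NB {n : ℕ} {X : Type} (F : X → E n) (B : E n → X) (ε K r₀ : ℝ) : Prop :=
  ∀ p : E n, ‖p‖ ≤ 1 → ∀ r : ℝ, 0 < r → r ≤ r₀ → ∃ (T : E n →L[ℝ] E n) (l : ℝ), 0 < l ∧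
    (∀ v, l * ‖v‖ ≤ ‖T v‖ ∧ ‖T v‖ ≤ K * (l * ‖v‖)) ∧
    ∀ q, ‖q - p‖ ≤ r → ‖F (B q) - F (B p) - T (q - p)‖ ≤ ε * l * r

theorem core {n : ℕ} (L : ℝ) (hL : 1 ≤ L) {X : Type} [TopologicalSpace X] [T2Space X]
    [ChartedSpace (E n) X] [IsManifold (𝓡 n) ∞ X] (F : X → E n) (hF : IsOpenEmbedding F)
    {ι : Type} [Fintype ι] (B : ι → E n → X) (hinj : ∀ j, InjOn (B j) (closedBall 0 2))
    (hLD : ∀ j, ∀ z ∈ closedBall (0 : E n) 2, LD n (B j) z)
    (htr : ∀ i j, ∀ p ∈ closedBall (0 : E n) 2, ∀ p' ∈ closedBall (0 : E n) 2,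
      ∀ q ∈ closedBall (0 : E n) 2, ∀ q' ∈ closedBall (0 : E n) 2,
      B i p = B j q → B i p' = B j q' → ‖q' - q‖ ≤ L * ‖p' - p‖)
    (K r₀ : ℝ) (hK : 1 ≤ K) (hr₀ : 0 < r₀) (hbox : ∀ j, NB F (B j) (eps n L) K r₀)
    (hcov : ∀ x, ¬ LD n F x → ∃ j, x ∈ B j '' closedBall 0 (1 / 2)) :
    ∃ (F' : X → E n) (C : Set X), IsCompact C ∧ (∀ p, p ∉ C → F' p = F p) ∧
      (∀ p, F' p ∈ range F) ∧ ∀ x, LD n F' x := by
  classical
  have hL0 : 0 < L := by linarith
  have hK0 : 0 < K := by linarith
  have he0 := eps_pos n hL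
  have he8 := eps_le n hL
  have : SecondCountableTopology X := hF.toIsEmbedding.secondCountableTopology
  have : LocallyCompactSpace X := ChartedSpace.locallyCompactSpace (E n) X
  have s12 : closedBall (0 : E n) 1 ⊆ ball 0 2 := closedBall_subset_ball (by norm_num)
  have s12' : closedBall (0 : E n) 1 ⊆ closedBall 0 2 := closedBall_subset_closedBall (by norm_num)
  have hBc : ∀ j, ContinuousOn (B j) (closedBall 0 2) :=
    fun j z hz => (hLD j z hz).continuousAt.continuousWithinAt
  have hopen : ∀ j (r : ℝ), r ≤ 2 → IsOpen (B j '' ball 0 r) := fun j r hr =>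
    isOpen_image_of_LD isOpen_ball fun z hz =>
      hLD j z (closedBall_subset_closedBall hr (ball_subset_closedBall hz))
  have hcomp : ∀ j (r : ℝ), r ≤ 2 → IsCompact (B j '' closedBall 0 r) := fun j r hr =>
    (isCompact_closedBall _ _).image_of_continuousOn ((hBc j).mono (closedBall_subset_closedBall hr))
  -- the open set where the sum of the partition is one
  set O : Set X := ⋃ j, B j '' ball 0 (3 / 4) with hO
  have hOo : IsOpen O := isOpen_iUnion fun j => hopen j _ (by norm_num)
  set s : Set X := ⋃ j, B j '' closedBall 0 (3 / 4) with hs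
  have hOs : O ⊆ s := iUnion_mono fun j => image_mono ball_subset_closedBall
  have hsc : IsClosed s := (isCompact_iUnion fun j => hcomp j _ (by norm_num)).isClosed
  obtain ⟨ρ, hρ⟩ := SmoothPartitionOfUnity.exists_isSubordinate (𝓡 n) hsc
    (fun j => B j '' ball 0 1) (fun j => hopen j _ (by norm_num)) (by
      refine iUnion_mono fun j => image_mono ?_
      exact closedBall_subset_ball (by norm_num))
  have hρ0 : ∀ j x, 0 ≤ ρ j x := fun j x => ρ.nonneg j x
  have hρs : ∀ x ∈ s, ∑ j, ρ j x = 1 := fun x hx => by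
    rw [← finsum_eq_sum_of_fintype]
    exact ρ.sum_eq_one hx
  have hρle : ∀ x, ∑ j, ρ j x ≤ 1 := fun x => by
    rw [← finsum_eq_sum_of_fintype]
    exact ρ.sum_le_one x
  have hρt : ∀ j, tsupport (ρ j) ⊆ B j '' ball 0 1 := fun j => hρ j
  have hOLD : ∀ x, x ∉ O → LD n F x := by
    intro x hx
    by_contra h
    obtain ⟨j, hj⟩ := hcov x h
    exact hx (mem_iUnion.2 ⟨j, image_mono (closedBall_subset_ball (by norm_num)) hj⟩)
  set C : Set X := ⋃ j, B j '' closedBall 0 1 with hC
  have hCc : IsCompact C := isCompact_iUnion fun j => hcomp j _ (by norm_num)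
  -- inverses
  obtain ⟨inv, hinv⟩ : ∃ inv : ι → X → E n, ∀ j, ∀ z ∈ closedBall (0 : E n) 2,
      inv j (B j z) = z := ⟨fun j => invFunOn (B j) (closedBall 0 2), fun j z hz =>
        (hinj j).leftInvOn_invFunOn hz⟩
  have hinvLD : ∀ j, ∀ z ∈ ball (0 : E n) 2, LD n (inv j) (B j z) := fun j z hz =>
    LD.inverse isOpen_ball (fun w hw => hLD j w (ball_subset_closedBall hw))
      (fun w hw => hinv j w (ball_subset_closedBall hw)) hz
  have hφLD : ∀ i j, ∀ z ∈ closedBall (0 : E n) 2, B i z ∈ B j '' ball 0 2 →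
      LD n (fun w => inv j (B i w)) z := by
    intro i j z hz hzj
    obtain ⟨w, hw, hwz⟩ := hzj
    refine LD.comp_fun (g := inv j) ?_ (hLD i z hz)
    rw [← hwz]
    exact hinvLD j w hw
  have hρB : ∀ i j, ∀ z ∈ closedBall (0 : E n) 2, ContDiffAt ℝ ∞ (fun w => ρ j (B i w)) z := by
    intro i j z hz
    apply ContMDiffAt.contDiffAt
    exact ((ρ j).contMDiff (B i z)).comp z (hLD i z hz).contMDiffAt
  have hGc : ∀ j, ContinuousOn (fun z => F (B j z)) (closedBall 0 2) := fun j =>
    hF.continuous.comp_continuousOn (hBc j)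
  have hFLD : ∀ i, ∀ z ∈ closedBall (0 : E n) 2, B i z ∉ O → LD n (fun w => F (B i w)) z :=
    fun i z hz hzO => LD.comp_fun (g := F) (hOLD _ hzO) (hLD i z hz)
  -- compact sets
  have hKij : ∀ i j, IsCompact (closedBall (0 : E n) 1 ∩ (B i) ⁻¹' (B j '' closedBall 0 1)) := by
    intro i j
    refine (isCompact_closedBall (0 : E n) 1).of_isClosed_subset ?_ inter_subset_left
    exact ((hBc i).mono s12').preimage_isClosed_of_isClosed isClosed_closedBall
      (hcomp j 1 (by norm_num)).isClosed
  have hK2 : ∀ i, IsCompact (closedBall (0 : E n) 1 ∩ (B i) ⁻¹' Oᶜ) := by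
    intro i
    refine (isCompact_closedBall (0 : E n) 1).of_isClosed_subset ?_ inter_subset_left
    exact ((hBc i).mono s12').preimage_isClosed_of_isClosed isClosed_closedBall
      hOo.isClosed_compl
  have hφ1 : ∀ i j, ∀ z ∈ closedBall (0 : E n) 1 ∩ (B i) ⁻¹' (B j '' closedBall 0 1),
      LD n (fun w => inv j (B i w)) z := fun i j z hz =>
    hφLD i j z (s12' hz.1) (image_mono s12 hz.2)
  -- room in the range
  obtain ⟨ε₁, hε₁, hε₁'⟩ := (hCc.image hF.continuous).exists_thickening_subset_open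
    hF.isOpen_range (image_subset_range _ _)
  -- lower bound of the derivatives
  have hσ : ∀ i, ∃ σ : ℝ, 0 < σ ∧ ∀ z ∈ closedBall (0 : E n) 1 ∩ (B i) ⁻¹' Oᶜ, ∀ v : E n,
      ‖v‖ = 1 → σ ≤ ‖fderiv ℝ (fun w => F (B i w)) z v‖ := fun i =>
    low_unif _ _ (hK2 i) fun z hz => hFLD i z (s12' hz.1) hz.2
  choose σ hσ0 hσ1 using hσ
  -- bound of the derivatives of the partition
  have hCb : ∀ i j, ∃ c : ℝ, ∀ z ∈ closedBall (0 : E n) 1,
      ‖fderiv ℝ (fun w => ρ j (B i w)) z‖ ≤ c := by
    intro i j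
    apply (isCompact_closedBall (0 : E n) 1).exists_bound_of_continuousOn
    intro z hz
    have h1 : ContDiffAt ℝ 1 (fun w => ρ j (B i w)) z := (hρB i j z (s12' hz)).of_le (by simp)
    exact ((h1.fderiv_right (m := 0) (by simp)).continuousAt).continuousWithinAt
  choose c hc using hCb
  set cc : ℝ := ∑ i, ∑ j, |c i j| with hcc
  have hcc0 : 0 ≤ cc := Finset.sum_nonneg fun i _ => Finset.sum_nonneg fun j _ => abs_nonneg _
  have hcs : ∀ i, ∑ j, |c i j| ≤ cc := fun i =>
    Finset.single_le_sum (f := fun i => ∑ j, |c i j|)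
      (fun i _ => Finset.sum_nonneg fun j _ => abs_nonneg _) (Finset.mem_univ i)
  -- the uniform statements
  have hη : (0 : ℝ) < 1 / (64 * L * K) := by positivity
  have U1 : ∀ᶠ v in 𝓝 (0 : E n), ∀ i j,
      ∀ z ∈ closedBall (0 : E n) 1 ∩ (B i) ⁻¹' (B j '' closedBall 0 1),
      ‖inv j (B i (z + v)) - inv j (B i z) - fderiv ℝ (fun w => inv j (B i w)) z v‖ ≤
        1 / (64 * L * K) * ‖v‖ := by
    rw [eventually_all]
    intro i
    rw [eventually_all]
    intro j
    exact unif_diff (fun w => inv j (B i w)) _ (hKij i j)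
      (fun z hz => (hφ1 i j z hz).contDiffAt) _ hη
  have U2 : ∀ᶠ v in 𝓝 (0 : E n), ∀ i j,
      ∀ z ∈ closedBall (0 : E n) 1 ∩ (B i) ⁻¹' (B j '' closedBall 0 1),
      B i (z + v) ∈ B j '' ball 0 2 := by
    rw [eventually_all]
    intro i
    rw [eventually_all]
    intro j
    apply (hKij i j).eventually_forall_of_forall_eventually
    intro z hz
    have c1 : Tendsto (fun p : E n × E n => p.2 + p.1) (𝓝 ((0 : E n), z)) (𝓝 z) := by
      have : Continuous (fun p : E n × E n => p.2 + p.1) := by fun_prop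
      have h := this.tendsto ((0 : E n), z)
      simpa using h
    have c2 : ∀ᶠ w in 𝓝 z, B i w ∈ B j '' ball 0 2 :=
      (hLD i z (s12' hz.1)).continuousAt ((hopen j 2 le_rfl).mem_nhds (image_mono s12 hz.2))
    exact c1.eventually c2
  have U3 : ∀ᶠ v in 𝓝 (0 : E n), ∀ i, ∀ z ∈ closedBall (0 : E n) 1 ∩ (B i) ⁻¹' Oᶜ,
      ‖F (B i (z + v)) - F (B i z) - fderiv ℝ (fun w => F (B i w)) z v‖ ≤ σ i / 16 * ‖v‖ := by
    rw [eventually_all]
    intro i
    exact unif_diff (fun w => F (B i w)) _ (hK2 i)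
      (fun z hz => (hFLD i z (s12' hz.1) hz.2).contDiffAt) _ (by have := hσ0 i; positivity)
  have U4 : ∀ᶠ v in 𝓝 (0 : E n), ∀ i, ∀ z ∈ closedBall (0 : E n) 1,
      ‖F (B i (z + v)) - F (B i z)‖ ≤ ε₁ / 2 := by
    rw [eventually_all]
    intro i
    apply (isCompact_closedBall (0 : E n) 1).eventually_forall_of_forall_eventually
    intro z hz
    have c0 : ContinuousAt (fun w => F (B i w)) z :=
      hF.continuous.continuousAt.comp (hLD i z (s12' hz)).continuousAt
    have c1 : Tendsto (fun p : E n × E n => p.2 + p.1) (𝓝 ((0 : E n), z)) (𝓝 z) := by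
      have : Continuous (fun p : E n × E n => p.2 + p.1) := by fun_prop
      have h := this.tendsto ((0 : E n), z)
      simpa using h
    have c2 : Tendsto (fun p : E n × E n => p.2) (𝓝 ((0 : E n), z)) (𝓝 z) :=
      continuous_snd.tendsto ((0 : E n), z)
    have c3 : Tendsto (fun p : E n × E n => ‖F (B i (p.2 + p.1)) - F (B i p.2)‖)
        (𝓝 ((0 : E n), z)) (𝓝 ‖F (B i z) - F (B i z)‖) :=
      ((c0.tendsto.comp c1).sub (c0.tendsto.comp c2)).norm
    rw [sub_self, norm_zero] at c3
    exact (c3.eventually (gt_mem_nhds (half_pos hε₁))).mono fun p hp => hp.le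
  obtain ⟨δ₁, hδ₁, hU⟩ := Metric.eventually_nhds_iff_ball.1 (U1.and (U2.and (U3.and U4)))
  -- the scale
  obtain ⟨δ, hδ, hδ1, hδr, hδ4, hδc⟩ : ∃ δ : ℝ, 0 < δ ∧ δ < δ₁ ∧ δ ≤ r₀ ∧ δ ≤ 1 / 4 ∧
      δ * (64 * K * L * cc) ≤ 1 := by
    refine ⟨min (min (δ₁ / 2) r₀) (min (1 / 4) (1 / (64 * K * L * cc + 1))), ?_, ?_, ?_, ?_, ?_⟩
    · have : 0 < 1 / (64 * K * L * cc + 1) := by positivity
      simp only [lt_min_iff]
      exact ⟨⟨by linarith, hr₀⟩, by norm_num, this⟩
    · exact lt_of_le_of_lt ((min_le_left _ _).trans (min_le_left _ _)) (by linarith)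
    · exact (min_le_left _ _).trans (min_le_right _ _)
    · exact (min_le_right _ _).trans (min_le_left _ _)
    · have h1 : min (min (δ₁ / 2) r₀) (min (1 / 4) (1 / (64 * K * L * cc + 1))) ≤
          1 / (64 * K * L * cc + 1) := (min_le_right _ _).trans (min_le_right _ _)
      refine (mul_le_mul_of_nonneg_right h1 (by positivity)).trans ?_
      rw [div_mul_eq_mul_div, div_le_one (by positivity)]
      linarith
  have V1 : ∀ v : E n, ‖v‖ ≤ δ → v ∈ ball (0 : E n) δ₁ := fun v hv => by
    rw [mem_ball_zero_iff]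
    exact lt_of_le_of_lt hv hδ1
  have hroom : ∀ z ∈ closedBall (0 : E n) 1, closedBall z δ ⊆ closedBall 0 2 := by
    intro z hz w hw
    rw [mem_closedBall_zero_iff] at hz ⊢
    rw [mem_closedBall, dist_eq_norm] at hw
    have := norm_le_norm_add_norm_sub' w z
    linarith
  -- the mollified maps
  obtain ⟨M, hM⟩ : ∃ M : ι → E n → E n, M = fun j => ML δ (fun z => F (B j z)) := ⟨_, rfl⟩
  have hMs : ∀ j, ContDiff ℝ ∞ (M j) := fun j => by
    rw [hM]
    exact ML_contDiff hδ (hGc j)
  set F' : X → E n := fun x => (1 - ∑ j, ρ j x) • F x + ∑ j, ρ j x • M j (inv j x) with hF'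
  have hρz : ∀ j x, x ∉ B j '' ball 0 1 → ∀ᶠ y in 𝓝 x, ρ j y = 0 := by
    intro j x hx
    have h1 : x ∉ tsupport (ρ j) := fun h => hx (hρt j h)
    have h2 := notMem_tsupport_iff_eventuallyEq.1 h1
    exact h2
  have hρz' : ∀ j x, x ∉ B j '' ball 0 1 → ρ j x = 0 := fun j x hx =>
    (hρz j x hx).self_of_nhds
  have hout : ∀ p, p ∉ C → F' p = F p := by
    intro p hp
    have h1 : ∀ j, ρ j p = 0 := fun j => hρz' j p fun h =>
      hp (mem_iUnion.2 ⟨j, image_mono ball_subset_closedBall h⟩)
    simp [hF', h1]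
  refine ⟨F', C, hCc, hout, ?_, ?_⟩
  · -- values in the range
    intro p
    by_cases hp : p ∈ C
    swap
    · rw [hout p hp]
      exact mem_range_self p
    apply hε₁'
    rw [mem_thickening_iff]
    refine ⟨F p, mem_image_of_mem _ hp, ?_⟩
    rw [dist_eq_norm]
    have h1 : F' p - F p = ∑ j, ρ j p • (M j (inv j p) - F p) := by
      simp only [hF', smul_sub, Finset.sum_sub_distrib, ← Finset.sum_smul, sub_smul, one_smul]
      abel
    rw [h1]
    have h2 : ∀ j, ‖ρ j p • (M j (inv j p) - F p)‖ ≤ ρ j p * (ε₁ / 2) := by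
      intro j
      by_cases hj : p ∈ B j '' ball 0 1
      swap
      · rw [hρz' j p hj]
        simp
      obtain ⟨z, hz, rfl⟩ := hj
      have hz1 := ball_subset_closedBall hz
      rw [norm_smul, Real.norm_of_nonneg (hρ0 _ _), hinv j z (s12' hz1)]
      apply mul_le_mul_of_nonneg_left _ (hρ0 _ _)
      rw [hM]
      refine ML_near hδ (hGc j) (by linarith) (hroom z hz1) fun y hy => ?_
      have h3 := (hU (y - z) (V1 _ hy)).2.2.2 j z hz1
      rwa [add_sub_cancel] at h3
    calc ‖∑ j, ρ j p • (M j (inv j p) - F p)‖ ≤ ∑ j, ρ j p * (ε₁ / 2) :=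
          norm_sum_le_of_le _ fun j _ => h2 j
      _ = (∑ j, ρ j p) * (ε₁ / 2) := by rw [Finset.sum_mul]
      _ ≤ 1 * (ε₁ / 2) := mul_le_mul_of_nonneg_right (hρle p) (by linarith)
      _ < ε₁ := by linarith
  -- smoothness in the charts
  have hsm : ∀ i, ∀ w ∈ ball (0 : E n) 2, ContDiffAt ℝ ∞ (fun y => F' (B i y)) w := by
    intro i w hw
    have hw' := ball_subset_closedBall hw
    have hcont := (hLD i w hw').continuousAt
    have ht0 : ContDiffAt ℝ ∞ (fun y => (1 - ∑ j, ρ j (B i y)) • F (B i y)) w := by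
      by_cases hx : B i w ∈ O
      · have h1 : (fun y => (1 - ∑ j, ρ j (B i y)) • F (B i y)) =ᶠ[𝓝 w] fun _ => 0 := by
          filter_upwards [hcont (hOo.mem_nhds hx)] with y hy
          rw [hρs _ (hOs hy), sub_self, zero_smul]
        exact contDiffAt_const.congr_of_eventuallyEq h1
      · refine ContDiffAt.smul (contDiffAt_const.sub (ContDiffAt.sum fun j _ => hρB i j w hw')) ?_
        exact (hFLD i w hw' hx).contDiffAt
    refine ht0.add (ContDiffAt.sum fun j _ => ?_)
    by_cases hx : B i w ∈ B j '' ball 0 1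
    · refine (hρB i j w hw').smul ((hMs j).contDiffAt.comp w ?_)
      exact (hφLD i j w hw' (image_mono (ball_subset_ball (by norm_num)) hx)).contDiffAt
    · have h1 : (fun y => ρ j (B i y) • M j (inv j (B i y))) =ᶠ[𝓝 w] fun _ => 0 := by
        filter_upwards [hcont.eventually (hρz j _ hx)] with y hy
        rw [hy, zero_smul]
      exact contDiffAt_const.congr_of_eventuallyEq h1
  intro x
  by_cases hx : x ∈ C
  swap
  · have h1 : LD n F x := hOLD x fun h => hx (by
      obtain ⟨j, hj⟩ := mem_iUnion.1 h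
      exact mem_iUnion.2 ⟨j, image_mono ((ball_subset_ball (by norm_num)).trans
        ball_subset_closedBall) hj⟩)
    refine h1.congr ?_
    filter_upwards [hCc.isClosed.isOpen_compl.mem_nhds hx] with y hy
    exact hout y hy
  obtain ⟨i, hi⟩ := mem_iUnion.1 hx
  obtain ⟨z, hz, rfl⟩ := hi
  have hz2 := s12 hz
  have hz2' := s12' hz
  -- it is enough to look at the chart
  suffices hmain : LD n (fun y => F' (B i y)) z by
    have h1 : LD n (fun y => F' (B i (inv i y))) (B i z) := by
      refine LD.comp_fun (g := fun y => F' (B i y)) (f := inv i) ?_ (hinvLD i z hz2)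
      rwa [hinv i z hz2']
    refine h1.congr ?_
    filter_upwards [(hopen i 2 le_rfl).mem_nhds ⟨z, hz2, rfl⟩] with y hy
    obtain ⟨w, hw, rfl⟩ := hy
    rw [hinv i w (ball_subset_closedBall hw)]
  have hev : ∀ᶠ w in 𝓝 z, ContDiffAt ℝ ∞ (fun y => F' (B i y)) w := by
    filter_upwards [isOpen_ball.mem_nhds hz2] with w hw
    exact hsm i w hw
  apply LD_of_bij hev
  have hcont := (hLD i z hz2').continuousAt
  -- the derivative
  set x := B i z with hxd
  set a : E n := F x with ha
  set D0 := fderiv ℝ (fun w => F (B i w)) z with hD0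
  set sg : ℝ := ∑ j, ρ j x with hsg
  have hd0 : HasFDerivAt (fun y => (1 - ∑ j, ρ j (B i y)) • (F (B i y) - a)) ((1 - sg) • D0) z := by
    by_cases hxO : x ∈ O
    · have h1 : (fun y => (1 - ∑ j, ρ j (B i y)) • (F (B i y) - a)) =ᶠ[𝓝 z] fun _ => 0 := by
        filter_upwards [hcont (hOo.mem_nhds hxO)] with y hy
        rw [hρs _ (hOs hy), sub_self, zero_smul]
      have h2 : sg = 1 := hρs _ (hOs hxO)
      refine ((hasFDerivAt_const 0 z).congr_of_eventuallyEq h1).congr_fderiv ?_
      rw [h2, sub_self]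
      ext
      simp
    · have h1 : HasFDerivAt (fun w => F (B i w) - a) D0 z :=
        (((hFLD i z hz2' hxO).contDiffAt.differentiableAt (by simp)).hasFDerivAt).sub_const a
      have h2 : ContDiffAt ℝ ∞ (fun y => (1 - ∑ j, ρ j (B i y))) z :=
        contDiffAt_const.sub (ContDiffAt.sum fun j _ => hρB i j z hz2')
      have h3 := (h2.differentiableAt (by simp)).hasFDerivAt.smul h1
      have h4 : F (B i z) - a = 0 := sub_self _
      rw [h4, ContinuousLinearMap.smulRight_zero, add_zero] at h3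
      exact h3
  set P : ι → E n →L[ℝ] E n := fun j => fderiv ℝ (fun w => inv j (B i w)) z with hP
  set D : ι → E n →L[ℝ] E n := fun j => fderiv ℝ (M j) (inv j x) with hDd
  set Q : ι → E n →L[ℝ] ℝ := fun j => fderiv ℝ (fun w => ρ j (B i w)) z with hQ
  have hdj : ∀ j, HasFDerivAt (fun y => ρ j (B i y) • (M j (inv j (B i y)) - a))
      (ρ j x • (D j).comp (P j) + (Q j).smulRight (M j (inv j x) - a)) z := by
    intro j
    by_cases hxj : x ∈ B j '' ball 0 1
    · have h1 : HasFDerivAt (fun w => inv j (B i w)) (P j) z :=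
        ((hφLD i j z hz2' (image_mono (ball_subset_ball (by norm_num))
          hxj)).contDiffAt.differentiableAt (by simp)).hasFDerivAt
      have h2 : HasFDerivAt (M j) (D j) (inv j (B i z)) :=
        ((hMs j).differentiable (by simp) _).hasFDerivAt
      have h3 : HasFDerivAt (fun y => M j (inv j (B i y)) - a) ((D j).comp (P j)) z :=
        (HasFDerivAt.comp z h2 h1).sub_const a
      have h4 : HasFDerivAt (fun w => ρ j (B i w)) (Q j) z :=
        ((hρB i j z hz2').differentiableAt (by simp)).hasFDerivAt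
      exact h4.smul h3
    · have h0 : ∀ᶠ y in 𝓝 z, ρ j (B i y) = 0 := hcont.eventually (hρz j _ hxj)
      have h1 : (fun y => ρ j (B i y) • (M j (inv j (B i y)) - a)) =ᶠ[𝓝 z] fun _ => 0 := by
        filter_upwards [h0] with y hy
        rw [hy, zero_smul]
      have h2 : Q j = 0 := by
        have : (fun w => ρ j (B i w)) =ᶠ[𝓝 z] fun _ => (0 : ℝ) := h0
        rw [hQ]
        simp only
        rw [this.fderiv_eq]
        simp
      have h3 : ρ j x = 0 := hρz' j _ hxj
      refine ((hasFDerivAt_const 0 z).congr_of_eventuallyEq h1).congr_fderiv ?_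
      rw [h2, h3]
      ext
      simp
  have hder : HasFDerivAt (fun y => F' (B i y)) ((1 - sg) • D0 +
      ∑ j, (ρ j x • (D j).comp (P j) + (Q j).smulRight (M j (inv j x) - a))) z := by
    have h1 := (hd0.add (HasFDerivAt.fun_sum (u := Finset.univ) fun j _ => hdj j)).const_add a
    refine h1.congr_of_eventuallyEq (Eventually.of_forall fun y => ?_)
    simp only [hF', Pi.add_apply, smul_sub, Finset.sum_sub_distrib, ← Finset.sum_smul, sub_smul,
      one_smul]
    abel
  -- the linear map at the scale `δ`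
  obtain ⟨Ti, li, hli, hTi, hTi'⟩ := hbox i z (by simpa using hz) δ hδ hδr
  have hCk := Ck_nonneg n
  have key : ∀ v : E n, ‖v‖ = 1 → ‖((1 - sg) • D0 +
      ∑ j, (ρ j x • (D j).comp (P j) + (Q j).smulRight (M j (inv j x) - a))) v - Ti v‖ ≤
        1 / 2 * ‖Ti v‖ := by
    intro v hv
    set t := ‖Ti v‖ with ht
    have hlt : li ≤ t := by
      have := (hTi v).1
      rwa [hv, mul_one] at this
    have ht0 : 0 < t := lt_of_lt_of_le hli hlt
    -- the term of `F`
    have g0 : (1 - sg) * ‖D0 v - Ti v‖ ≤ (1 - sg) * (t / 4) := by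
      by_cases hxO : x ∈ O
      · have h2 : sg = 1 := hρs _ (hOs hxO)
        rw [h2, sub_self, zero_mul, zero_mul]
      apply mul_le_mul_of_nonneg_left _ (sub_nonneg.2 (hρle x))
      have e1 : ∀ u : E n, ‖(D0 - Ti) u‖ ≤ (eps n L * li + σ i / 16) * ‖u‖ := by
        refine bound_of_small _ δ _ hδ fun u hu => ?_
        have e2 := (hU u (V1 u hu.le)).2.2.1 i z ⟨hz, hxO⟩
        have e3 := hTi' (z + u) (by rw [add_sub_cancel_left]; exact hu.le)
        rw [add_sub_cancel_left] at e3
        have e4 : (D0 - Ti) u = (F (B i (z + u)) - F (B i z) - Ti u) -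
            (F (B i (z + u)) - F (B i z) - D0 u) := by
          rw [ContinuousLinearMap.sub_apply]
          abel
        rw [e4]
        refine (norm_sub_le _ _).trans ?_
        rw [add_mul]
        refine add_le_add ?_ e2
        rwa [hu]
      have e5 := e1 v
      rw [hv, mul_one, ContinuousLinearMap.sub_apply] at e5
      have e6 := hσ1 i z ⟨hz, hxO⟩ v hv
      have e7 : ‖D0 v‖ ≤ t + ‖D0 v - Ti v‖ := by
        have := norm_add_le (Ti v) (D0 v - Ti v)
        rwa [add_sub_cancel] at this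
      have e8 : eps n L * li ≤ 1 / 8 * t := mul_le_mul he8 hlt hli.le (by norm_num)
      rw [← hD0] at e6
      linarith
    -- the other charts
    have gj : ∀ j, ρ j x * ‖D j (P j v) - Ti v‖ ≤ ρ j x * (t / 4) ∧
        ‖Q j v‖ * ‖M j (inv j x) - a‖ ≤ |c i j| * (16 * K * L * δ * t) := by
      intro j
      by_cases hxj : x ∈ B j '' ball 0 1
      swap
      · have h3 : ρ j x = 0 := hρz' j _ hxj
        have h2 : Q j = 0 := by
          have : (fun w => ρ j (B i w)) =ᶠ[𝓝 z] fun _ => (0 : ℝ) :=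
            hcont.eventually (hρz j _ hxj)
          rw [hQ]
          simp only
          rw [this.fderiv_eq]
          simp
        rw [h3, h2]
        refine ⟨by simp, ?_⟩
        simp only [ContinuousLinearMap.zero_apply, norm_zero, zero_mul]
        positivity
      obtain ⟨w, hw, hwx⟩ := hxj
      have hw1 := ball_subset_closedBall hw
      have hwi : inv j x = w := by
        rw [← hwx]
        exact hinv j w (s12' hw1)
      obtain ⟨Tj, lj, hlj, hTj, hTj'⟩ := hbox j w (by simpa using hw1) δ hδ hδr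
      have hmem : z ∈ closedBall (0 : E n) 1 ∩ (B i) ⁻¹' (B j '' closedBall 0 1) :=
        ⟨hz, w, hw1, hwx⟩
      have hδL : δ / L ≤ δ := by
        rw [div_le_iff₀ hL0]
        nlinarith
      -- the derivative of the mollification
      have m1 : ‖D j - Tj‖ ≤ Ck n * (eps n L * lj) := by
        have := ML_deriv hδ (hGc j) (z := w) (M := eps n L * lj * δ) (by positivity)
          (hroom w hw1) Tj (fun y hy => hTj' y hy)
        rw [mul_div_assoc, div_self hδ.ne', mul_one] at this
        simp only [hDd, hwi, hM]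
        exact this
      have m2 : ‖M j (inv j x) - a‖ ≤ 2 * K * lj * δ := by
        rw [hwi, hM]
        have hax : a = F (B j w) := by rw [ha, hwx]
        rw [hax]
        refine ML_near hδ (hGc j) (by positivity) (hroom w hw1) fun y hy => ?_
        have e1 := hTj' y hy
        have e2 := (hTj (y - w)).2
        have e3 : F (B j y) - F (B j w) = (F (B j y) - F (B j w) - Tj (y - w)) + Tj (y - w) := by
          abel
        rw [e3]
        refine (norm_add_le _ _).trans ?_
        have e4 : K * (lj * ‖y - w‖) ≤ K * (lj * δ) := by gcongr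
        have e5 : eps n L * lj * δ ≤ 1 * lj * δ := by gcongr; linarith
        have e6 : 1 * lj * δ ≤ K * lj * δ := by gcongr
        linarith
      have oth := other L K δ hL hK hδ (fun u => F (B i (z + u)) - F (B i z))
        (fun u => inv j (B i (z + u)) - inv j (B i z)) Ti Tj (P j) (D j) li lj hli hlj
        (fun u => (hTi u).1) hTj
        (by
          intro u hu
          have := hTi' (z + u) (by rw [add_sub_cancel_left, hu]; exact hδL)
          rwa [add_sub_cancel_left] at this)
        (by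
          intro u hu
          have huδ : ‖u‖ ≤ δ := hu.trans_le hδL
          obtain ⟨w', hw', hw'x⟩ := (hU u (V1 u huδ)).2.1 i j z hmem
          have e1 : inv j (B i (z + u)) = w' := by
            rw [← hw'x]
            exact hinv j w' (ball_subset_closedBall hw')
          have e2 : inv j (B i z) = w := hwi
          have hzu : z + u ∈ closedBall (0 : E n) 2 := hroom z hz (by
            rw [mem_closedBall, dist_eq_norm, add_sub_cancel_left]
            exact huδ)
          have e3 := htr i j z hz2' (z + u) hzu w (s12' hw1) w' (ball_subset_closedBall hw')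
            hwx.symm hw'x.symm
          rw [add_sub_cancel_left, hu] at e3
          have e4 : ‖w' - w‖ ≤ δ := e3.trans (by rw [mul_div_cancel₀ _ hL0.ne'])
          have e5 := hTj' w' e4
          simp only [e1, e2]
          rw [hw'x, hwx] at e5
          exact e5)
        (by
          intro u hu
          exact (hU u (V1 u (hu.trans_le hδL))).1 i j z hmem)
        (by
          intro u hu
          have huδ : ‖u‖ ≤ δ := hu.trans_le hδL
          obtain ⟨w', hw', hw'x⟩ := (hU u (V1 u huδ)).2.1 i j z hmem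
          have e1 : inv j (B i (z + u)) = w' := by
            rw [← hw'x]
            exact hinv j w' (ball_subset_closedBall hw')
          have e2 : inv j (B i z) = w := hwi
          have hzu : z + u ∈ closedBall (0 : E n) 2 := hroom z hz (by
            rw [mem_closedBall, dist_eq_norm, add_sub_cancel_left]
            exact huδ)
          have e3 := htr i j z hz2' (z + u) hzu w (s12' hw1) w' (ball_subset_closedBall hw')
            hwx.symm hw'x.symm
          have e4 := htr j i w (s12' hw1) w' (ball_subset_closedBall hw') z hz2' (z + u) hzu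
            hwx hw'x
          rw [add_sub_cancel_left] at e3 e4
          simp only [e1, e2]
          exact ⟨e3, e4⟩)
        m1 v hv
      refine ⟨mul_le_mul_of_nonneg_left oth.1 (hρ0 _ _), ?_⟩
      have q1 : ‖Q j v‖ ≤ |c i j| := by
        have := (Q j).le_opNorm v
        rw [hv, mul_one] at this
        exact this.trans ((hc i j z hz).trans (le_abs_self _))
      refine mul_le_mul q1 (m2.trans ?_) (norm_nonneg _) (abs_nonneg _)
      have := mul_le_mul_of_nonneg_left oth.2 (show 0 ≤ 2 * K * δ by positivity)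
      calc 2 * K * lj * δ = 2 * K * δ * lj := by ring
        _ ≤ 2 * K * δ * (8 * L * t) := this
        _ = 16 * K * L * δ * t := by ring
    -- summation
    have hid : ((1 - sg) • D0 +
        ∑ j, (ρ j x • (D j).comp (P j) + (Q j).smulRight (M j (inv j x) - a))) v - Ti v =
        (1 - sg) • (D0 v - Ti v) + ∑ j, ρ j x • (D j (P j v) - Ti v) +
          ∑ j, Q j v • (M j (inv j x) - a) := by
      simp only [ContinuousLinearMap.add_apply, ContinuousLinearMap.smul_apply,
        ContinuousLinearMap.sum_apply, ContinuousLinearMap.comp_apply,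
        ContinuousLinearMap.smulRight_apply, smul_sub, Finset.sum_sub_distrib,
        Finset.sum_add_distrib, ← Finset.sum_smul, sub_smul, one_smul]
      rw [← hsg]
      abel
    rw [hid]
    have n1 : ‖(1 - sg) • (D0 v - Ti v)‖ ≤ (1 - sg) * (t / 4) := by
      rw [norm_smul, Real.norm_of_nonneg (sub_nonneg.2 (hρle x))]
      exact g0
    have n2 : ‖∑ j, ρ j x • (D j (P j v) - Ti v)‖ ≤ sg * (t / 4) := by
      rw [hsg, Finset.sum_mul]
      refine norm_sum_le_of_le _ fun j _ => ?_
      rw [norm_smul, Real.norm_of_nonneg (hρ0 _ _)]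
      exact (gj j).1
    have n3 : ‖∑ j, Q j v • (M j (inv j x) - a)‖ ≤ t / 4 := by
      calc ‖∑ j, Q j v • (M j (inv j x) - a)‖ ≤ ∑ j, |c i j| * (16 * K * L * δ * t) := by
            refine norm_sum_le_of_le _ fun j _ => ?_
            rw [norm_smul]
            exact (gj j).2
        _ = (∑ j, |c i j|) * (16 * K * L * δ * t) := by rw [Finset.sum_mul]
        _ ≤ cc * (16 * K * L * δ * t) := mul_le_mul_of_nonneg_right (hcs i) (by positivity)
        _ = (δ * (64 * K * L * cc)) * (t / 4) := by ring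
        _ ≤ 1 * (t / 4) := mul_le_mul_of_nonneg_right hδc (by positivity)
        _ = t / 4 := one_mul _
    have := norm_add₃_le (a := (1 - sg) • (D0 v - Ti v))
      (b := ∑ j, ρ j x • (D j (P j v) - Ti v)) (c := ∑ j, Q j v • (M j (inv j x) - a))
    nlinarith
  rw [hder.fderiv]
  have hinj' : Injective ((1 - sg) • D0 +
      ∑ j, (ρ j x • (D j).comp (P j) + (Q j).smulRight (M j (inv j x) - a))) := by
    rw [injective_iff_map_eq_zero]
    intro v hv
    by_contra hv0
    have hvn : 0 < ‖v‖ := norm_pos_iff.2 hv0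
    have h1 : ‖(‖v‖⁻¹ • v)‖ = 1 := by
      rw [norm_smul, norm_inv, norm_norm, inv_mul_cancel₀ hvn.ne']
    have h2 := key _ h1
    rw [map_smul, hv, smul_zero, zero_sub, norm_neg] at h2
    have h3 := (hTi (‖v‖⁻¹ • v)).1
    rw [h1, mul_one] at h3
    linarith
  exact ⟨hinj', (LinearMap.injective_iff_surjective (f := (((1 - sg) • D0 +
      ∑ j, (ρ j x • (D j).comp (P j) + (Q j).smulRight (M j (inv j x) - a))) :
        E n →L[ℝ] E n).toLinearMap)).1 hinj'⟩

end Pool.Agent.X169.NL
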