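import Pool.Agent.X169.NL.Moll

/-! Pointwise estimates and uniform differentiability. -/

set_option autoImplicit false

open Set Filter Topology Metric Function MeasureTheory
open scoped Manifold ContDiff

noncomputable section

namespace Pool.Agent.X169.NL

open Pool.Agent.Y522

variable {n : ℕ}

/-- uniform differentiability on a compact set -/
theorem unif_diff (φ : E n → E n) (K : Set (E n)) (hK : IsCompact K)
    (h : ∀ z ∈ K, ContDiffAt ℝ ∞ φ z) (η : ℝ) (hη : 0 < η) :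
    ∀ᶠ v in 𝓝 (0 : E n), ∀ z ∈ K, ‖φ (z + v) - φ z - fderiv ℝ φ z v‖ ≤ η * ‖v‖ := by
  apply hK.eventually_forall_of_forall_eventually
  intro z₀ hz₀
  have h1 : ContDiffAt ℝ 1 φ z₀ := (h z₀ hz₀).of_le (by simp)
  have h2 : HasStrictFDerivAt φ (fderiv ℝ φ z₀) z₀ :=
    h1.hasStrictFDerivAt (by simp)
  have h3 : ContinuousAt (fderiv ℝ φ) z₀ := (h1.fderiv_right (m := 0) (by simp)).continuousAt
  have h4 := h2.isLittleO.def (half_pos hη)
  have h5 : ∀ᶠ z in 𝓝 z₀, ‖fderiv ℝ φ z - fderiv ℝ φ z₀‖ < η / 2 := by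
    have := h3.eventually (Metric.ball_mem_nhds (fderiv ℝ φ z₀) (half_pos hη))
    filter_upwards [this] with z hz
    rwa [dist_eq_norm] at hz
  have c1 : Tendsto (fun p : E n × E n => (p.2 + p.1, p.2)) (𝓝 ((0 : E n), z₀))
      (𝓝 (z₀, z₀)) := by
    have : Continuous (fun p : E n × E n => (p.2 + p.1, p.2)) := by fun_prop
    have h := this.tendsto ((0 : E n), z₀)
    simpa using h
  have c2 : Tendsto (fun p : E n × E n => p.2) (𝓝 ((0 : E n), z₀)) (𝓝 z₀) :=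
    continuous_snd.tendsto ((0 : E n), z₀)
  filter_upwards [c1.eventually h4, c2.eventually h5] with p hp1 hp2
  simp only [add_sub_cancel_left] at hp1
  have e1 : φ (p.2 + p.1) - φ p.2 - fderiv ℝ φ p.2 p.1 =
      (φ (p.2 + p.1) - φ p.2 - fderiv ℝ φ z₀ p.1) - (fderiv ℝ φ p.2 - fderiv ℝ φ z₀) p.1 := by
    rw [ContinuousLinearMap.sub_apply]
    abel
  rw [e1]
  refine (norm_sub_le _ _).trans ?_
  have e2 := (fderiv ℝ φ p.2 - fderiv ℝ φ z₀).le_opNorm p.1
  have e3 := mul_le_mul_of_nonneg_right hp2.le (norm_nonneg p.1)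
  linarith

/-- a bound valid on a small sphere is valid everywhere -/
theorem bound_of_small (T : E n →L[ℝ] E n) (δ C : ℝ) (hδ : 0 < δ)
    (h : ∀ v, ‖v‖ = δ → ‖T v‖ ≤ C * ‖v‖) (v : E n) : ‖T v‖ ≤ C * ‖v‖ := by
  rcases eq_or_ne v 0 with rfl | hv
  · simp
  have hv' : 0 < ‖v‖ := norm_pos_iff.2 hv
  have h1 := h ((δ / ‖v‖) • v) (by
    rw [norm_smul, Real.norm_of_nonneg (by positivity), div_mul_cancel₀ _ hv'.ne'])
  rw [map_smul, norm_smul, norm_smul, Real.norm_of_nonneg (by positivity)] at h1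
  have h2 : 0 < δ / ‖v‖ := by positivity
  have h3 : δ / ‖v‖ * ‖T v‖ ≤ δ / ‖v‖ * (C * ‖v‖) := by linarith
  exact le_of_mul_le_mul_left h3 h2

theorem low_of_small (T : E n →L[ℝ] E n) (δ c : ℝ) (hδ : 0 < δ)
    (h : ∀ v, ‖v‖ = δ → c * ‖v‖ ≤ ‖T v‖) (v : E n) : c * ‖v‖ ≤ ‖T v‖ := by
  rcases eq_or_ne v 0 with rfl | hv
  · simp
  have hv' : 0 < ‖v‖ := norm_pos_iff.2 hv
  have h1 := h ((δ / ‖v‖) • v) (by
    rw [norm_smul, Real.norm_of_nonneg (by positivity), div_mul_cancel₀ _ hv'.ne'])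
  rw [map_smul, norm_smul, norm_smul, Real.norm_of_nonneg (by positivity)] at h1
  have h2 : 0 < δ / ‖v‖ := by positivity
  have h3 : δ / ‖v‖ * (c * ‖v‖) ≤ δ / ‖v‖ * ‖T v‖ := by linarith
  exact le_of_mul_le_mul_left h3 h2

/-- the constant -/
def eps (n : ℕ) (L : ℝ) : ℝ := 1 / (8 * (16 * Ck n + 9) * L ^ 2)

theorem eps_pos (n : ℕ) {L : ℝ} (hL : 1 ≤ L) : 0 < eps n L := by
  have := Ck_nonneg n
  unfold eps
  positivity

theorem eps_eq (n : ℕ) {L : ℝ} (hL : 1 ≤ L) : eps n L * (16 * Ck n * L ^ 2 + 9 * L ^ 2) = 1 / 8 := by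
  have := Ck_nonneg n
  unfold eps
  field_simp

theorem eps_le (n : ℕ) {L : ℝ} (hL : 1 ≤ L) : eps n L ≤ 1 / 8 := by
  have h0 := Ck_nonneg n
  have h1 := eps_eq n hL
  have h2 := eps_pos n hL
  have h3 : 1 ≤ L ^ 2 := by nlinarith
  have h4 : 0 ≤ eps n L * (16 * Ck n * L ^ 2) := by positivity
  nlinarith [mul_le_mul_of_nonneg_left h3 h2.le]

/-- one chart seen from another one: `A v` is the increment of the map, `a v` the increment of the
change of charts with derivative `P`, and `D` is the derivative of the mollification. -/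
theorem other (L K δ : ℝ) (hL : 1 ≤ L) (hK : 1 ≤ K) (hδ : 0 < δ) (A a : E n → E n)
    (Ti Tj P D : E n →L[ℝ] E n) (li lj : ℝ) (hli : 0 < li) (hlj : 0 < lj)
    (hTi : ∀ v, li * ‖v‖ ≤ ‖Ti v‖)
    (hTj : ∀ v, lj * ‖v‖ ≤ ‖Tj v‖ ∧ ‖Tj v‖ ≤ K * (lj * ‖v‖))
    (h1 : ∀ v, ‖v‖ = δ / L → ‖A v - Ti v‖ ≤ eps n L * li * δ)
    (h2 : ∀ v, ‖v‖ = δ / L → ‖A v - Tj (a v)‖ ≤ eps n L * lj * δ)
    (h3 : ∀ v, ‖v‖ = δ / L → ‖a v - P v‖ ≤ 1 / (64 * L * K) * ‖v‖)
    (h4 : ∀ v, ‖v‖ = δ / L → ‖a v‖ ≤ L * ‖v‖ ∧ ‖v‖ ≤ L * ‖a v‖)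
    (h5 : ‖D - Tj‖ ≤ Ck n * (eps n L * lj)) (v : E n) (hv : ‖v‖ = 1) :
    ‖D (P v) - Ti v‖ ≤ ‖Ti v‖ / 4 ∧ lj ≤ 8 * L * ‖Ti v‖ := by
  have hδL : 0 < δ / L := by positivity
  have hL0 : 0 < L := by linarith
  have hK0 : 0 < K := by linarith
  have he := eps_pos n hL
  have hC := Ck_nonneg n
  set ε := eps n L with hε
  set η : ℝ := 1 / (64 * L * K) with hη
  have hη0 : 0 < η := by positivity
  have hηL : η * (64 * L * K) = 1 := by rw [hη]; field_simp
  have hηL' : η ≤ 1 / (2 * L) := by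
    rw [hη]
    apply one_div_le_one_div_of_le (by positivity)
    nlinarith
  -- bounds for `P`
  have hP1 : ∀ v, ‖P v‖ ≤ 2 * L * ‖v‖ := by
    refine bound_of_small P _ _ hδL fun v hv => ?_
    have e1 := h3 v hv
    have e2 := (h4 v hv).1
    have e3 : ‖P v‖ ≤ ‖a v‖ + ‖a v - P v‖ := by
      have := norm_sub_le (a v) (a v - P v)
      rwa [sub_sub_cancel] at this
    have e4 : η * ‖v‖ ≤ L * ‖v‖ := by
      apply mul_le_mul_of_nonneg_right _ (norm_nonneg v)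
      refine hηL'.trans ?_
      rw [div_le_iff₀ (by positivity)]
      nlinarith
    linarith
  have hP2 : ∀ v, 1 / (2 * L) * ‖v‖ ≤ ‖P v‖ := by
    refine low_of_small P _ _ hδL fun v hv => ?_
    have e1 := h3 v hv
    have e2 := (h4 v hv).2
    have e3 : ‖a v‖ ≤ ‖P v‖ + ‖a v - P v‖ := by
      have := norm_add_le (P v) (a v - P v)
      rwa [add_sub_cancel] at this
    have e4 : η * ‖v‖ ≤ 1 / (2 * L) * ‖v‖ := mul_le_mul_of_nonneg_right hηL' (norm_nonneg v)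
    have e5 : ‖v‖ / L ≤ ‖a v‖ := by
      rw [div_le_iff₀ hL0]
      linarith
    have e6 : 1 / (2 * L) * ‖v‖ + 1 / (2 * L) * ‖v‖ = ‖v‖ / L := by field_simp; ring
    linarith
  -- comparison of `Ti` and `Tj P`
  have hcmp : ∀ v, ‖(Ti - Tj.comp P) v‖ ≤ (L * ε * (li + lj) + K * η * lj) * ‖v‖ := by
    refine bound_of_small _ _ _ hδL fun v hv => ?_
    have e1 := h1 v hv
    have e2 := h2 v hv
    have e3 := (hTj (a v - P v)).2
    have e4 := h3 v hv
    have e5 : (Ti - Tj.comp P) v = -(A v - Ti v) + (A v - Tj (a v)) + Tj (a v - P v) := by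
      rw [ContinuousLinearMap.sub_apply, ContinuousLinearMap.comp_apply, map_sub]
      abel
    rw [e5]
    have e6 := norm_add₃_le (a := -(A v - Ti v)) (b := (A v - Tj (a v))) (c := Tj (a v - P v))
    rw [norm_neg] at e6
    have e7 : K * (lj * ‖a v - P v‖) ≤ K * (lj * (η * ‖v‖)) := by gcongr
    have e8 : δ = L * ‖v‖ := by rw [hv]; field_simp
    rw [e8] at e1 e2
    calc _ ≤ _ := e6
      _ ≤ ε * li * (L * ‖v‖) + ε * lj * (L * ‖v‖) + K * (lj * (η * ‖v‖)) := by linarith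
      _ = _ := by ring
  have hc := hcmp v
  rw [hv, mul_one, ContinuousLinearMap.sub_apply, ContinuousLinearMap.comp_apply] at hc
  have ht := hTi v
  rw [hv, mul_one] at ht
  set t := ‖Ti v‖ with htd
  have ht0 : 0 < t := lt_of_lt_of_le hli ht
  have hKη : K * η * (64 * L) = 1 := by
    rw [← hηL]; ring
  have hlow : lj * (1 / (2 * L)) ≤ ‖Tj (P v)‖ := by
    have e1 := hP2 v
    rw [hv, mul_one] at e1
    exact (mul_le_mul_of_nonneg_left e1 hlj.le).trans (hTj (P v)).1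
  have hup : ‖Tj (P v)‖ ≤ t + (L * ε * (li + lj) + K * η * lj) := by
    have := norm_sub_le (Ti v) (Ti v - Tj (P v))
    rw [sub_sub_cancel] at this
    linarith
  have heq := eps_eq n hL
  rw [← hε] at heq
  have hεL : ε * L ^ 2 ≤ 1 / 72 := by
    have : 0 ≤ ε * (16 * Ck n * L ^ 2) := by positivity
    nlinarith
  -- multiply by `4 L`
  have hlj8 : lj ≤ 8 * L * t := by
    have e1 : lj * (1 / (2 * L)) * (4 * L) = 2 * lj := by field_simp; ring
    have e2 : lj * (1 / (2 * L)) * (4 * L) ≤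
        (t + (L * ε * (li + lj) + K * η * lj)) * (4 * L) :=
      mul_le_mul_of_nonneg_right (hlow.trans hup) (by positivity)
    have e3 : (t + (L * ε * (li + lj) + K * η * lj)) * (4 * L) =
        4 * L * t + 4 * (ε * L ^ 2) * (li + lj) + (K * η * (64 * L)) * lj / 16 := by ring
    rw [e1, e3, hKη] at e2
    have e4 : 4 * (ε * L ^ 2) * (li + lj) ≤ 4 * (1 / 72) * (t + lj) := by
      apply mul_le_mul _ (by linarith) (by positivity) (by norm_num)
      linarith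
    nlinarith
  refine ⟨?_, hlj8⟩
  have f1 : ‖D (P v) - Ti v‖ ≤ ‖(D - Tj) (P v)‖ + ‖Ti v - Tj (P v)‖ := by
    have e1 : D (P v) - Ti v = (D - Tj) (P v) + -(Ti v - Tj (P v)) := by
      rw [ContinuousLinearMap.sub_apply]
      abel
    rw [e1]
    refine (norm_add_le _ _).trans ?_
    rw [norm_neg]
  have f2 : ‖(D - Tj) (P v)‖ ≤ Ck n * (ε * lj) * (2 * L) := by
    refine ((D - Tj).le_opNorm _).trans ?_
    have e1 := hP1 v
    rw [hv, mul_one] at e1
    exact mul_le_mul h5 e1 (norm_nonneg _) (by positivity)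
  have f3 : Ck n * (ε * lj) * (2 * L) ≤ Ck n * (ε * (8 * L * t)) * (2 * L) := by gcongr
  have f4 : L * ε * (li + lj) + K * η * lj ≤ L * ε * (t + 8 * L * t) + K * η * (8 * L * t) := by
    gcongr
  have f5 : K * η * (8 * L * t) = (K * η * (64 * L)) * t / 8 := by ring
  rw [f5, hKη] at f4
  have f6 : L * ε * (t + 8 * L * t) ≤ 9 * (ε * L ^ 2) * t := by
    have e1 : L ≤ L ^ 2 := by nlinarith
    have : L * ε * (t + 8 * L * t) = (L + 8 * L ^ 2) * ε * t := by ring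
    rw [this]
    have e2 : (L + 8 * L ^ 2) * ε * t ≤ (9 * L ^ 2) * ε * t := by
      gcongr
      linarith
    linarith
  have f7 : Ck n * (ε * (8 * L * t)) * (2 * L) + 9 * (ε * L ^ 2) * t =
      ε * (16 * Ck n * L ^ 2 + 9 * L ^ 2) * t := by ring
  rw [heq] at f7
  linarith

end Pool.Agent.X169.NL
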