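import Pool.Agent.Y522.Stm6

/-! Mollification of a map which is nearly linear at the scale of the mollifier. -/

set_option autoImplicit false

open Set Filter Topology Metric Function MeasureTheory
open scoped Manifold ContDiff Convolution

noncomputable section

namespace Pool.Agent.X169.NL

open Pool.Agent.Y522 ContinuousLinearMap

variable {n : ℕ}

/-- the kernel of radius `δ` -/
def kd (n : ℕ) (δ : ℝ) (y : E n) : ℝ := (δ ^ n)⁻¹ * kr n (δ⁻¹ • y)

/-- the total variation of the kernel of radius one -/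
def Ck (n : ℕ) : ℝ := ∫ y, ‖fderiv ℝ (kr n) y‖

theorem Ck_nonneg (n : ℕ) : 0 ≤ Ck n := integral_nonneg fun _ => norm_nonneg _

theorem kr_contDiff : ContDiff ℝ ∞ (kr n) := (bmp n).contDiff_normed

theorem kr_compact : HasCompactSupport (kr n) := (bmp n).hasCompactSupport_normed

theorem kr_support : support (kr n) = ball 0 1 := (bmp n).support_normed_eq

theorem kd_contDiff (δ : ℝ) : ContDiff ℝ ∞ (kd n δ) := by
  unfold kd
  exact contDiff_const.mul (kr_contDiff.comp (contDiff_const_smul _))

theorem kd_support {δ : ℝ} (hδ : 0 < δ) : support (kd n δ) ⊆ ball 0 δ := by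
  intro y hy
  have h1 : kr n (δ⁻¹ • y) ≠ 0 := fun h => hy (by simp [kd, h])
  have h2 : δ⁻¹ • y ∈ ball (0 : E n) 1 := by
    rw [← kr_support]
    exact h1
  rw [mem_ball_zero_iff, norm_smul, norm_inv, Real.norm_of_nonneg hδ.le,
    inv_mul_lt_iff₀ hδ, mul_one] at h2
  rwa [mem_ball_zero_iff]

theorem kd_compact {δ : ℝ} (hδ : 0 < δ) : HasCompactSupport (kd n δ) := by
  apply HasCompactSupport.intro (isCompact_closedBall (0 : E n) δ)
  intro x hx
  by_contra h
  exact hx (ball_subset_closedBall (kd_support hδ h))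

theorem kd_nonneg {δ : ℝ} (hδ : 0 < δ) (y : E n) : 0 ≤ kd n δ y :=
  mul_nonneg (by positivity) ((bmp n).nonneg_normed _)

theorem kd_integral {δ : ℝ} (hδ : 0 < δ) : ∫ y, kd n δ y = 1 := by
  unfold kd
  rw [integral_const_mul, Measure.integral_comp_inv_smul]
  have h1 : ∫ y, kr n y = 1 := (bmp n).integral_normed
  rw [h1, finrank_euclideanSpace, Fintype.card_fin, abs_of_pos (by positivity)]
  simp only [smul_eq_mul, mul_one]
  exact inv_mul_cancel₀ (by positivity)

theorem kd_even {δ : ℝ} (y : E n) : kd n δ (-y) = kd n δ y := by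
  unfold kd
  rw [smul_neg]
  congr 1
  exact (bmp n).normed_neg _

theorem kd_fderiv {δ : ℝ} (hδ : 0 < δ) (y : E n) :
    ‖fderiv ℝ (kd n δ) y‖ = (δ ^ n)⁻¹ * δ⁻¹ * ‖fderiv ℝ (kr n) (δ⁻¹ • y)‖ := by
  have h0 : DifferentiableAt ℝ (kr n) (δ⁻¹ • y) :=
    (kr_contDiff.differentiable (by simp)) _
  have h1 : HasFDerivAt (kd n δ) ((δ ^ n)⁻¹ • ((fderiv ℝ (kr n) (δ⁻¹ • y)).comp
      (δ⁻¹ • ContinuousLinearMap.id ℝ (E n)))) y := by
    have h2 : HasFDerivAt (fun y : E n => δ⁻¹ • y) (δ⁻¹ • ContinuousLinearMap.id ℝ (E n)) y :=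
      (hasFDerivAt_id (𝕜 := ℝ) y).const_smul δ⁻¹
    exact (h0.hasFDerivAt.comp y h2).const_mul ((δ ^ n)⁻¹)
  rw [h1.fderiv]
  rw [norm_smul, ContinuousLinearMap.comp_smul, ContinuousLinearMap.comp_id, norm_smul,
    Real.norm_of_nonneg (by positivity), Real.norm_of_nonneg (by positivity)]
  ring

theorem kd_var {δ : ℝ} (hδ : 0 < δ) : ∫ y, ‖fderiv ℝ (kd n δ) y‖ = δ⁻¹ * Ck n := by
  simp only [kd_fderiv hδ]
  rw [integral_const_mul, Measure.integral_comp_inv_smul (μ := volume)
    (fun y : E n => ‖fderiv ℝ (kr n) y‖) δ]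
  rw [finrank_euclideanSpace, Fintype.card_fin, abs_of_pos (by positivity)]
  simp only [smul_eq_mul, Ck]
  field_simp

/-- the mollification -/
def ML (δ : ℝ) (G : E n → E n) : E n → E n :=
  (kd n δ) ⋆[lsmul ℝ ℝ, volume] (indicator (closedBall 0 2) G)

theorem locInt {G : E n → E n} (hG : ContinuousOn G (closedBall 0 2)) :
    Integrable (indicator (closedBall (0 : E n) 2) G) volume := by
  rw [integrable_indicator_iff measurableSet_closedBall]
  exact hG.integrableOn_compact (isCompact_closedBall _ _)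

theorem ML_contDiff {δ : ℝ} (hδ : 0 < δ) {G : E n → E n} (hG : ContinuousOn G (closedBall 0 2)) :
    ContDiff ℝ ∞ (ML δ G) :=
  (kd_compact hδ).contDiff_convolution_left _ (kd_contDiff δ) (locInt hG).locallyIntegrable

theorem ML_near {δ : ℝ} (hδ : 0 < δ) {G : E n → E n} (hG : ContinuousOn G (closedBall 0 2))
    {z c : E n} {M : ℝ} (hM : 0 ≤ M) (hz : closedBall z δ ⊆ closedBall 0 2)
    (h : ∀ y, ‖y - z‖ ≤ δ → ‖G y - c‖ ≤ M) : ‖ML δ G z - c‖ ≤ M := by
  rw [← dist_eq_norm]
  refine dist_convolution_le hM (kd_support hδ) (kd_nonneg hδ) (kd_integral hδ)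
    (locInt hG).aestronglyMeasurable ?_
  intro y hy
  rw [indicator_of_mem (hz (ball_subset_closedBall hy)), dist_eq_norm]
  exact h y (by rw [← dist_eq_norm]; exact (mem_ball.1 hy).le)

theorem ML_deriv {δ : ℝ} (hδ : 0 < δ) {G : E n → E n} (hG : ContinuousOn G (closedBall 0 2))
    {z : E n} {M : ℝ} (hM : 0 ≤ M) (hz : closedBall z δ ⊆ closedBall 0 2) (T : E n →L[ℝ] E n)
    (h : ∀ y, ‖y - z‖ ≤ δ → ‖G y - G z - T (y - z)‖ ≤ M) :
    ‖fderiv ℝ (ML δ G) z - T‖ ≤ Ck n * (M / δ) := by
  have hkc := kd_compact (n := n) hδ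
  have hkd : ContDiff ℝ ∞ (kd n δ) := kd_contDiff δ
  have hkcont : Continuous (kd n δ) := hkd.continuous
  set g : E n → E n := indicator (closedBall 0 2) G with hg
  set l : E n → E n := fun y => G z + T (y - z) with hl
  have hlc : Continuous l := by fun_prop
  have hgi : LocallyIntegrable g volume := (locInt hG).locallyIntegrable
  have hli : LocallyIntegrable l volume := hlc.locallyIntegrable
  set R : E n → E n := g - l with hR
  have hRi : LocallyIntegrable R volume := hgi.sub hli
  -- the convolution with the affine function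
  have hconl : (kd n δ) ⋆[lsmul ℝ ℝ, volume] l = l := by
    funext w
    rw [convolution_def]
    simp only [lsmul_apply]
    have h1 : ∀ t : E n, kd n δ t • l (w - t) = kd n δ t • l w - T (kd n δ t • t) := by
      intro t
      simp only [hl, map_smul]
      rw [← smul_sub]
      congr 1
      rw [show w - t - z = (w - z) - t by abel, map_sub]
      abel
    have i1 : Integrable (fun t : E n => kd n δ t • l w) volume :=
      (hkcont.integrable_of_hasCompactSupport hkc).smul_const _
    have i2 : Integrable (fun t : E n => kd n δ t • t) volume := by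
      apply Continuous.integrable_of_hasCompactSupport (by fun_prop)
      exact hkc.smul_right
    rw [integral_congr_ae (Eventually.of_forall h1), integral_sub i1 (T.integrable_comp i2),
      integral_smul_const, kd_integral hδ, one_smul, T.integral_comp_comm i2]
    have h2 : ∫ t : E n, kd n δ t • t = 0 := by
      have h3 : ∫ t : E n, kd n δ t • t = ∫ t : E n, kd n δ (-t) • (-t) :=
        (integral_neg_eq_self (fun t : E n => kd n δ t • t) volume).symm
      simp only [kd_even, smul_neg] at h3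
      rw [integral_neg] at h3
      have h4 : (2 : ℝ) • ∫ t : E n, kd n δ t • t = 0 := by
        rw [two_smul]
        nth_rewrite 1 [h3]
        exact neg_add_cancel _
      exact (smul_eq_zero.1 h4).resolve_left two_ne_zero
    rw [h2, map_zero, sub_zero]
  have hsum : ML δ G = l + (kd n δ) ⋆[lsmul ℝ ℝ, volume] R := by
    have h1 : g = l + R := by rw [hR]; abel
    unfold ML
    rw [← hg]
    conv_lhs => rw [h1]
    rw [ConvolutionExists.distrib_add, hconl]
    · exact hkc.convolutionExists_left _ hkcont hli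
    · exact hkc.convolutionExists_left _ hkcont hRi
  have hdR := hkc.hasFDerivAt_convolution_left (lsmul ℝ ℝ : ℝ →L[ℝ] E n →L[ℝ] E n)
    (hkd.of_le (by simp)) hRi z
  have hdl : HasFDerivAt l T z := by
    have h1 : HasFDerivAt (fun y : E n => y - z) (ContinuousLinearMap.id ℝ (E n)) z :=
      (hasFDerivAt_id z).sub_const z
    have h2 := HasFDerivAt.comp (f := fun y : E n => y - z) z (T.hasFDerivAt (x := z - z)) h1
    have h3 := h2.const_add (G z)
    rw [ContinuousLinearMap.comp_id] at h3
    exact h3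
  have hd := (hdl.add hdR).fderiv
  rw [← hsum] at hd
  rw [hd, add_sub_cancel_left, convolution_def]
  have key : ∀ t : E n, ‖((lsmul ℝ ℝ : ℝ →L[ℝ] E n →L[ℝ] E n).precompL (E n))
      (fderiv ℝ (kd n δ) t) (R (z - t))‖ ≤ ‖fderiv ℝ (kd n δ) t‖ * M := by
    intro t
    by_cases ht : fderiv ℝ (kd n δ) t = 0
    · rw [ht]
      simp
    have ht' : ‖t‖ ≤ δ := by
      by_contra hcon
      push Not at hcon
      apply ht
      have : kd n δ =ᶠ[𝓝 t] fun _ => 0 := by
        have h1 : {y : E n | δ < ‖y‖} ∈ 𝓝 t :=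
          (isOpen_lt continuous_const continuous_norm).mem_nhds hcon
        filter_upwards [h1] with y hy
        by_contra h
        have := mem_ball_zero_iff.1 (kd_support hδ h)
        exact absurd hy (not_lt.2 this.le)
      rw [this.fderiv_eq]
      simp
    have hRb : ‖R (z - t)‖ ≤ M := by
      have h1 : z - t ∈ closedBall (0 : E n) 2 := hz (by
        rw [mem_closedBall, dist_eq_norm, sub_sub_cancel_left, norm_neg]
        exact ht')
      have h2 := h (z - t) (by rw [sub_sub_cancel_left, norm_neg]; exact ht')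
      have h3 : R (z - t) = G (z - t) - G z - T (z - t - z) := by
        rw [hR, Pi.sub_apply, hg, indicator_of_mem h1, hl]
        exact (sub_sub _ _ _).symm
      rw [h3]
      exact h2
    refine ContinuousLinearMap.opNorm_le_bound _ (by positivity) fun w => ?_
    rw [ContinuousLinearMap.precompL_apply, lsmul_apply, norm_smul]
    calc ‖(fderiv ℝ (kd n δ) t) w‖ * ‖R (z - t)‖
        ≤ (‖fderiv ℝ (kd n δ) t‖ * ‖w‖) * M := by
          apply mul_le_mul (ContinuousLinearMap.le_opNorm _ _) hRb (norm_nonneg _) (by positivity)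
      _ = ‖fderiv ℝ (kd n δ) t‖ * M * ‖w‖ := by ring
  have hfi : Integrable (fun t : E n => ‖fderiv ℝ (kd n δ) t‖) volume := by
    have h1 : Continuous (fderiv ℝ (kd n δ)) := hkd.continuous_fderiv (by simp)
    exact (h1.integrable_of_hasCompactSupport (hkc.fderiv ℝ)).norm
  calc norm (∫ t, ((lsmul ℝ ℝ : ℝ →L[ℝ] E n →L[ℝ] E n).precompL (E n))
      (fderiv ℝ (kd n δ) t) (R (z - t)))
      ≤ ∫ t, ‖fderiv ℝ (kd n δ) t‖ * M :=
        norm_integral_le_of_norm_le (hfi.mul_const M) (Eventually.of_forall key)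
    _ = (∫ t, ‖fderiv ℝ (kd n δ) t‖) * M := integral_mul_const _ _
    _ = Ck n * (M / δ) := by
        rw [kd_var hδ]
        field_simp

end Pool.Agent.X169.NL
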