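import Pool.Agent.X169.NL.Glob
import Pool.Agent.Y514.SH.Sch2
import Pool.Agent.Y702.SH.ExtO

/-! The Schoenflies theorem for nearly linear balls. -/

set_option autoImplicit false

open Set Filter Topology Metric Function MeasureTheory
open scoped Manifold ContDiff

noncomputable section

namespace Pool.Agent.X169.NL

open Pool.Agent.Y522 Pool.Agent.Y514.SH

theorem sch_fixed (n : ℕ) (H : E n → E n) (δ : ℝ) (hδ : 0 < δ)
    (hHc : ContinuousOn H (ball 0 (1 + δ))) (hHi : InjOn H (ball 0 (1 + δ)))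
    (hHL : ∀ x, 1 ≤ ‖x‖ → ‖x‖ < 1 + δ → LD n H x)
    (hN : ∀ x, ‖x‖ < 1 → ¬ LD n H x → ∃ K r : ℝ, 0 < r ∧
      NLin H (fun z => z + x) (eps n (1 ^ 2)) K r r) :
    ∃ (G : E n → E n) (O : E n ≃ₗᵢ[ℝ] E n) (R' : ℝ), Bijective G ∧
      (∀ x, LD n G x) ∧ (∀ x, ‖x‖ = 1 → G x = H x) ∧
      G '' closedBall 0 1 = H '' closedBall 0 1 ∧ ∀ x, R' ≤ ‖x‖ → G x = O x := by
  have hsub : ball (0 : E n) 1 ⊆ ball 0 (1 + δ) := ball_subset_ball (by linarith)
  have hFc : Continuous (fun y => H (UB n y)) := by
    have h1 : ContinuousOn H (ball 0 1) := hHc.mono hsub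
    exact h1.comp_continuous (UB_continuous n) fun x => mem_ball_zero_iff.2 (UB_norm _ x)
  have hFi : Injective (fun y => H (UB n y)) := by
    intro x y hxy
    exact UB_inj n (hHi (hsub (mem_ball_zero_iff.2 (UB_norm _ x)))
      (hsub (mem_ball_zero_iff.2 (UB_norm _ y))) hxy)
  have hFo : IsOpenMap (fun y => H (UB n y)) := by
    refine IsOpenMap.of_nhds_le fun x s hs => ?_
    obtain ⟨r, hr, hrs⟩ := Metric.nhds_basis_closedBall.mem_iff.1 (Filter.mem_map.1 hs)
    have h1 := Pool.Agent.Helper514.IoD.image_mem_nhds (fun y => H (UB n y)) x r hr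
      hFc.continuousOn hFi.injOn
    refine mem_of_superset h1 ?_
    rintro _ ⟨y, hy, rfl⟩
    exact hrs hy
  obtain ⟨F', C, hC, -, hF'i, hF'r, hF'C, hF'L⟩ := glob_fixed (n := n) 1 le_rfl
    (fun y => H (UB n y)) (IsOpenEmbedding.of_continuous_injective_isOpenMap hFc hFi hFo)
    (isPreconnected_range hFc) (fun a b => ‖UB n b - UB n a‖)
    (isCompact_bad n H fun x hx => hHL x hx.ge (by linarith)) (by
      intro x hx
      have hx' : ¬ LD n H (UB n x) := fun hc => hx ((LD_iff _ H x).2 hc)
      have hxn : ‖UB n x‖ < 1 := UB_norm n x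
      obtain ⟨K, r, hr, hNr⟩ := hN _ hxn hx'
      have hroom : 0 < (1 - ‖UB n x‖) / 3 := by linarith
      have hin : ∀ w : E n, ‖w‖ < 3 * ((1 - ‖UB n x‖) / 3) → ‖w + UB n x‖ < 1 := by
        intro w hw
        have h2 := norm_add_le w (UB n x)
        linarith
      refine ⟨fun z => (UB n).symm (z + UB n x), K, min r ((1 - ‖UB n x‖) / 3), ?_, ?_,
        lt_min hr hroom, ?_, ?_⟩
      · simp only [zero_add]
        exact UB_left n x
      · refine LD.comp_fun (g := (UB n).symm) (f := fun z => z + UB n x) ?_ (LD_add_const _ _)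
        rw [zero_add]
        exact UB_symm_LD n hxn
      · intro p q hp hq
        have e1 := hp.trans (min_le_right _ _)
        have e2 := hq.trans (min_le_right _ _)
        have e3 : ‖UB n ((UB n).symm (q + UB n x)) - UB n ((UB n).symm (p + UB n x))‖ =
            ‖q - p‖ := by
          rw [UB_right n (hin p (by linarith)), UB_right n (hin q (by linarith)),
            add_sub_add_right_eq_sub]
        constructor <;> rw [one_mul]
        · exact e3.ge
        · exact e3.le
      · intro p hp s hs hs'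
        obtain ⟨T, l, hl, hT, hT'⟩ := hNr p (hp.trans (min_le_left _ _)) s hs
          (hs'.trans (min_le_left _ _))
        refine ⟨T, l, hl, hT, fun q hq => ?_⟩
        have e1 := hp.trans (min_le_right _ _)
        have e2 := hs'.trans (min_le_right _ _)
        have e3 : ‖q‖ ≤ ‖p‖ + ‖q - p‖ := norm_le_norm_add_norm_sub' q p
        simp only [UB_right n (hin p (by linarith)), UB_right n (hin q (by linarith))]
        exact hT' q hq)
  exact finish Pool.Agent.Y702.SH.extO n H δ hδ hHi hHL F' C hC hF'i hF'r hF'C hF'L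

end Pool.Agent.X169.NL
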